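import Pool.Agent.Lib.MP_471c81_an.Select

set_option autoImplicit false

namespace Pool.Agent.L471c81

open Filter Topology

section

variable {X : Type*} [NormedAddCommGroup X] [NormedSpace ℝ X]
variable {W : Type*} [NormedAddCommGroup W] [NormedSpace ℝ W]

/-- Smulyan type lemma. -/
lemma smulyan {N : W → ℝ} {y0 : W} {w0 : W →L[ℝ] ℝ} (h : HasFDerivAt N w0 y0) {ε : ℝ}
    (hε : 0 < ε) :
    ∃ δ > 0, ∀ w : W →L[ℝ] ℝ, (∀ y, w y ≤ N y) → N y0 - δ ≤ w y0 → ‖w - w0‖ ≤ ε := by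
  have h1 := h.isLittleO.def (show (0 : ℝ) < ε / 2 by positivity)
  rw [Metric.eventually_nhds_iff] at h1
  obtain ⟨η, hη, h2⟩ := h1
  refine ⟨ε * η / 4, by positivity, fun w hw hw0 => ?_⟩
  have key : ∀ h : W, ‖h‖ < η → (w - w0) h ≤ ε / 2 * ‖h‖ + ε * η / 4 := by
    intro h hh
    have h3 := h2 (y := y0 + h) (by simpa [dist_eq_norm] using hh)
    simp only [add_sub_cancel_left] at h3
    have h4 := (le_abs_self _).trans h3
    have h5 := hw (y0 + h)
    rw [map_add] at h5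
    simp only [sub_apply]
    linarith
  refine ContinuousLinearMap.opNorm_le_bound _ hε.le fun x => ?_
  rcases eq_or_ne x 0 with rfl | hx
  · simp
  have hxn : 0 < ‖x‖ := norm_pos_iff.mpr hx
  set r : ℝ := η / 2 / ‖x‖ with hr
  have hrpos : 0 < r := by positivity
  have hnr : ‖r • x‖ = η / 2 := by
    rw [norm_smul, Real.norm_of_nonneg hrpos.le, hr]; field_simp
  have h6 := key (r • x) (by rw [hnr]; linarith)
  have h7 := key (-(r • x)) (by rw [norm_neg, hnr]; linarith)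
  rw [norm_neg] at h7
  rw [hnr] at h6 h7
  rw [map_neg, map_smul, smul_eq_mul] at h7
  rw [map_smul, smul_eq_mul] at h6
  have h8 : r * |(w - w0) x| ≤ ε * η / 2 := by
    rw [← abs_of_pos hrpos, ← abs_mul, abs_le]
    constructor <;> linarith
  have h9 : r * |(w - w0) x| ≤ r * (ε * ‖x‖) := by
    refine h8.trans (le_of_eq ?_)
    rw [hr]; field_simp
  simpa [Real.norm_eq_abs] using le_of_mul_le_mul_left h9 hrpos

lemma seminorm_fderiv {N : Seminorm ℝ W} {y0 : W} {w0 : W →L[ℝ] ℝ} (h : HasFDerivAt N w0 y0) :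
    w0 y0 = N y0 ∧ ∀ y, w0 y ≤ N y := by
  have hdir : ∀ v : W, HasDerivAt (fun t : ℝ => N (y0 + t • v)) (w0 v) 0 := by
    intro v
    have := h.hasLineDerivAt v
    exact this
  constructor
  · have h1 : HasDerivAt (fun t : ℝ => N (y0 + t • y0)) (N y0) 0 := by
      have h2 : HasDerivAt (fun t : ℝ => (1 + t) * N y0) (N y0) 0 := by
        simpa using ((hasDerivAt_id (0 : ℝ)).const_add 1).mul_const (N y0)
      refine h2.congr_of_eventuallyEq ?_
      have : ∀ᶠ t : ℝ in 𝓝 0, -1 < t := lt_mem_nhds (by norm_num)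
      filter_upwards [this] with t ht
      have : y0 + t • y0 = (1 + t) • y0 := by module
      rw [this, map_smul_eq_mul, Real.norm_of_nonneg (by linarith)]
    exact (hdir y0).unique h1
  · intro y
    have h1 := (hdir y).tendsto_slope_zero_right
    refine le_of_tendsto h1 ?_
    filter_upwards [self_mem_nhdsWithin] with t ht
    have ht' : (0 : ℝ) < t := ht
    simp only [zero_add, zero_smul, add_zero, smul_eq_mul]
    rw [inv_mul_le_iff₀ ht']
    have h2 := map_add_le_add N y0 (t • y)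
    rw [map_smul_eq_mul, Real.norm_of_nonneg ht'.le] at h2
    linarith

/-- The properties of the set of functionals defining the extension. -/
structure BSet (ι : W →L[ℝ] X) (N : Seminorm ℝ W) (B : Set (X →L[ℝ] ℝ)) : Prop where
  zero_mem : 0 ∈ B
  neg_mem : ∀ z ∈ B, -z ∈ B
  mid_mem : ∀ z ∈ B, ∀ z' ∈ B, (1/2 : ℝ) • (z + z') ∈ B
  bdd : ∃ S > 0, ∀ z ∈ B, ‖z‖ ≤ S
  closed : ∀ (u : ℕ → (X →L[ℝ] ℝ)) z, (∀ n, u n ∈ B) → PW u z → z ∈ B
  ball : ∃ c > 0, ∀ z : X →L[ℝ] ℝ, ‖z‖ ≤ c → z ∈ B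
  le : ∀ z ∈ B, ∀ y, z (ι y) ≤ N y
  smooth : ∀ y0 : W, y0 ≠ 0 → ∃ z0 ∈ B, z0 (ι y0) = N y0 ∧
    ∀ ε > 0, ∃ δ > 0, ∀ x, ‖x - ι y0‖ < δ → ∀ z ∈ B,
      z x ≤ N y0 + z0 (x - ι y0) + ε * ‖x - ι y0‖

theorem exists_BSet [TopologicalSpace.SeparableSpace X] {Ψ : (X →L[ℝ] ℝ) → ℝ} (hΨ : Good Ψ)
    (ι : W →L[ℝ] X) (hι : ∀ y, ‖ι y‖ = ‖y‖) (hHB : HB ι) (N : Seminorm ℝ W)
    (hN : ∃ c C : ℝ, 0 < c ∧ 0 < C ∧ ∀ y, c * ‖y‖ ≤ N y ∧ N y ≤ C * ‖y‖)
    (hd : ∀ y : W, y ≠ 0 → DifferentiableAt ℝ N y) : ∃ B, BSet ι N B := by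
  obtain ⟨s, hsc, hs, hsodd, K, hK, hsK⟩ := exists_selection hΨ ι hHB
  obtain ⟨c, C, hc, hC, hNc⟩ := hN
  -- the dual ball of `N`
  let Br : Set (W →L[ℝ] ℝ) := {w | ∀ y, w y ≤ N y}
  have hBrn : ∀ w ∈ Br, ‖w‖ ≤ C := by
    intro w hw
    refine ContinuousLinearMap.opNorm_le_bound _ hC.le fun y => ?_
    rw [Real.norm_eq_abs, abs_le]
    have h1 := hw y
    have h2 := hw (-y)
    rw [map_neg, map_neg_eq_map] at h2
    have h3 := (hNc y).2
    constructor <;> linarith
  have hBrneg : ∀ w ∈ Br, -w ∈ Br := by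
    intro w hw y
    have := hw (-y)
    rw [map_neg, map_neg_eq_map] at this
    simpa using this
  obtain ⟨S, hS, hSw⟩ : ∃ S > 0, ∀ w ∈ Br, ‖s w‖ ≤ S := by
    refine ⟨Real.sqrt (K * (1 + C ^ 2)), by positivity, fun w hw => ?_⟩
    apply Real.le_sqrt_of_sq_le
    refine (hsK w).trans ?_
    have := hBrn w hw
    gcongr
  let UB : X → ℝ → Prop := fun x t => (∀ w ∈ Br, s w x ≤ t) ∧ c / 2 * ‖x‖ ≤ t
  let B : Set (X →L[ℝ] ℝ) := {z | ∀ x t, UB x t → z x ≤ t}
  have hsB : ∀ w ∈ Br, s w ∈ B := fun w hw x t ht => ht.1 w hw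
  refine ⟨B, ?_, ?_, ?_, ?_, ?_, ?_, ?_, ?_⟩
  · -- zero
    intro x t ht
    have : 0 ≤ c / 2 * ‖x‖ := by positivity
    simpa using this.trans ht.2
  · -- neg
    intro z hz x t ht
    have h1 : UB (-x) t := by
      refine ⟨fun w hw => ?_, by simpa using ht.2⟩
      have := ht.1 (-w) (hBrneg w hw)
      rw [hsodd] at this
      simpa using this
    have := hz (-x) t h1
    simpa using this
  · -- midpoint
    intro z hz z' hz' x t ht
    have h1 := hz x t ht
    have h2 := hz' x t ht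
    simp only [smul_apply, add_apply, smul_eq_mul]
    linarith
  · -- bounded
    refine ⟨max S (c / 2), lt_max_of_lt_left hS, fun z hz => ?_⟩
    have hle : ∀ x, z x ≤ max S (c / 2) * ‖x‖ := by
      intro x
      apply hz
      refine ⟨fun w hw => ?_, ?_⟩
      · calc s w x ≤ ‖s w x‖ := le_abs_self _
          _ ≤ ‖s w‖ * ‖x‖ := ContinuousLinearMap.le_opNorm _ _
          _ ≤ max S (c / 2) * ‖x‖ := by
            gcongr
            exact (hSw w hw).trans (le_max_left _ _)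
      · gcongr
        exact le_max_right _ _
    refine ContinuousLinearMap.opNorm_le_bound _ (by positivity) fun x => ?_
    rw [Real.norm_eq_abs, abs_le]
    have h1 := hle x
    have h2 := hle (-x)
    rw [map_neg, norm_neg] at h2
    constructor <;> linarith
  · -- closed
    intro u z hu hpw x t ht
    exact le_of_tendsto' (hpw x) fun n => hu n x t ht
  · -- ball
    refine ⟨c / 2, by positivity, fun z hz x t ht => ?_⟩
    calc z x ≤ ‖z x‖ := le_abs_self _
      _ ≤ ‖z‖ * ‖x‖ := ContinuousLinearMap.le_opNorm _ _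
      _ ≤ c / 2 * ‖x‖ := by gcongr
      _ ≤ t := ht.2
  · -- le
    intro z hz y
    apply hz
    refine ⟨fun w hw => ?_, ?_⟩
    · rw [hs]; exact hw y
    · rw [hι]
      have := (hNc y).1
      have : 0 ≤ c * ‖y‖ := by positivity
      linarith
  · -- smooth
    intro y0 hy0
    have hder := (hd y0 hy0).hasFDerivAt
    set w0 := fderiv ℝ N y0 with hw0
    obtain ⟨hw0y, hw0le⟩ := seminorm_fderiv hder
    refine ⟨s w0, hsB w0 hw0le, by rw [hs]; exact hw0y, ?_⟩
    intro ε hε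
    -- continuity of the selection
    obtain ⟨ε', hε', hε's⟩ := Metric.continuousAt_iff.mp hsc.continuousAt ε hε
    obtain ⟨δ, hδ, hδw⟩ := smulyan hder (show (0 : ℝ) < ε' / 2 by positivity)
    have hny0 : 0 < ‖y0‖ := norm_pos_iff.mpr hy0
    -- the ball part
    have hev : ∀ᶠ x in 𝓝 (ι y0), c / 2 * ‖x‖ < N y0 + s w0 (x - ι y0) := by
      have hcont : Continuous fun x => N y0 + s w0 (x - ι y0) - c / 2 * ‖x‖ := by fun_prop
      have hpos : 0 < N y0 + s w0 (ι y0 - ι y0) - c / 2 * ‖ι y0‖ := by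
        rw [sub_self, map_zero, hι]
        have := (hNc y0).1
        have : 0 < c * ‖y0‖ := by positivity
        linarith
      filter_upwards [hcont.continuousAt.eventually (lt_mem_nhds hpos)] with x hx
      linarith
    rw [Metric.eventually_nhds_iff] at hev
    obtain ⟨δ1, hδ1, hδ1x⟩ := hev
    refine ⟨min δ1 (δ / (2 * S)), by positivity, fun x hx z hz => ?_⟩
    apply hz
    refine ⟨fun w hw => ?_, ?_⟩
    · have hsplit : s w x = w y0 + s w (x - ι y0) := by
        rw [map_sub, hs]; ring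
      rw [hsplit]
      by_cases hcase : N y0 - δ ≤ w y0
      · have h1 := hδw w hw hcase
        have h2 : dist (s w) (s w0) < ε := hε's (by rw [dist_eq_norm]; linarith)
        rw [dist_eq_norm] at h2
        have h3 : (s w - s w0) (x - ι y0) ≤ ε * ‖x - ι y0‖ :=
          calc (s w - s w0) (x - ι y0) ≤ ‖(s w - s w0) (x - ι y0)‖ := le_abs_self _
            _ ≤ ‖s w - s w0‖ * ‖x - ι y0‖ := ContinuousLinearMap.le_opNorm _ _
            _ ≤ ε * ‖x - ι y0‖ := by gcongr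
        rw [sub_apply] at h3
        have := hw y0
        linarith
      · push Not at hcase
        have h1 : s w (x - ι y0) ≤ S * ‖x - ι y0‖ :=
          calc s w (x - ι y0) ≤ ‖s w (x - ι y0)‖ := le_abs_self _
            _ ≤ ‖s w‖ * ‖x - ι y0‖ := ContinuousLinearMap.le_opNorm _ _
            _ ≤ S * ‖x - ι y0‖ := by gcongr; exact hSw w hw
        have h2 : -(S * ‖x - ι y0‖) ≤ s w0 (x - ι y0) := by
          have : ‖s w0 (x - ι y0)‖ ≤ S * ‖x - ι y0‖ :=
            calc ‖s w0 (x - ι y0)‖ ≤ ‖s w0‖ * ‖x - ι y0‖ := ContinuousLinearMap.le_opNorm _ _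
              _ ≤ S * ‖x - ι y0‖ := by gcongr; exact hSw w0 hw0le
          exact (abs_le.mp this).1
        have h3 : ‖x - ι y0‖ < δ / (2 * S) := hx.trans_le (min_le_right _ _)
        rw [lt_div_iff₀ (by positivity)] at h3
        have h4 : 0 ≤ ε * ‖x - ι y0‖ := by positivity
        linarith
    · have h1 := hδ1x (y := x) (by rw [dist_eq_norm]; exact hx.trans_le (min_le_left _ _))
      have h4 : 0 ≤ ε * ‖x - ι y0‖ := by positivity
      linarith

end

end Pool.Agent.L471c81
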