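import Mathlib

set_option autoImplicit false

namespace Pool.Agent.L471c81

open Filter Topology

section

variable {X : Type*} [NormedAddCommGroup X] [NormedSpace ℝ X]

/-- Pointwise convergence of a sequence of functionals. -/
def PW (u : ℕ → (X →L[ℝ] ℝ)) (z : X →L[ℝ] ℝ) : Prop :=
  ∀ x, Tendsto (fun n => u n x) atTop (𝓝 (z x))

/-- Sequential Banach-Alaoglu, in pointwise form. -/
lemma exists_subseq_pw [TopologicalSpace.SeparableSpace X] {R : ℝ}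
    (z : ℕ → (X →L[ℝ] ℝ)) (hz : ∀ n, ‖z n‖ ≤ R) :
    ∃ (φ : ℕ → ℕ) (z' : X →L[ℝ] ℝ), StrictMono φ ∧ PW (fun n => z (φ n)) z' := by
  have h := WeakDual.isSeqCompact_closedBall ℝ X (0 : X →L[ℝ] ℝ) R
  have hz' : ∀ n, StrongDual.toWeakDual (z n) ∈
      WeakDual.toStrongDual ⁻¹' Metric.closedBall (0 : StrongDual ℝ X) R := by
    intro n
    simpa using hz n
  obtain ⟨z', hz'mem, φ, hφ, hlim⟩ := h hz'
  refine ⟨φ, WeakDual.toStrongDual z', hφ, fun x => ?_⟩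
  have := (WeakDual.eval_continuous (𝕜 := ℝ) x).continuousAt.tendsto.comp hlim
  exact this

lemma PW.comp {u : ℕ → (X →L[ℝ] ℝ)} {z : X →L[ℝ] ℝ} (h : PW u z) {φ : ℕ → ℕ}
    (hφ : StrictMono φ) : PW (fun n => u (φ n)) z := fun x =>
  (h x).comp hφ.tendsto_atTop

/-- lower semicontinuity along a sequence -/
def LS (u : ℕ → (X →L[ℝ] ℝ)) (z : X →L[ℝ] ℝ) (g : (X →L[ℝ] ℝ) → ℝ) : Prop :=
  ∀ a < g z, ∀ᶠ n in atTop, a < g (u n)

lemma LS.norm {u : ℕ → (X →L[ℝ] ℝ)} {z : X →L[ℝ] ℝ} (h : PW u z) (e : X →L[ℝ] ℝ) :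
    LS u z (fun z => ‖z - e‖) := by
  intro a ha
  obtain ⟨x, hx1, hx2⟩ := ContinuousLinearMap.exists_lt_apply_of_lt_opNorm (z - e) ha
  have h1 : Tendsto (fun n => ‖(u n - e) x‖) atTop (𝓝 ‖(z - e) x‖) := by
    have := (h x).sub_const (e x)
    simpa using this.norm
  filter_upwards [h1.eventually (lt_mem_nhds hx2)] with n hn
  refine hn.trans_le ?_
  calc ‖(u n - e) x‖ ≤ ‖u n - e‖ * ‖x‖ := ContinuousLinearMap.le_opNorm _ _
    _ ≤ ‖u n - e‖ * 1 := by gcongr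
    _ = _ := mul_one _

lemma LS.sq {u : ℕ → (X →L[ℝ] ℝ)} {z : X →L[ℝ] ℝ} {g : (X →L[ℝ] ℝ) → ℝ} (h : LS u z g)
    (hg : ∀ z, 0 ≤ g z) : LS u z (fun z => g z ^ 2) := by
  intro a ha
  rcases lt_or_ge a 0 with h0 | h0
  · exact Eventually.of_forall fun n => h0.trans_le (sq_nonneg _)
  · have h1 : Real.sqrt a < g z := by
      rw [Real.sqrt_lt' (lt_of_le_of_ne (hg z) ?_)]
      · exact ha
      · intro h2
        simp only [← h2] at ha
        norm_num at ha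
        linarith
    filter_upwards [h _ h1] with n hn
    have := Real.sqrt_nonneg a
    calc a = Real.sqrt a ^ 2 := (Real.sq_sqrt h0).symm
      _ < _ := by gcongr

lemma LS.add {u : ℕ → (X →L[ℝ] ℝ)} {z : X →L[ℝ] ℝ} {g h : (X →L[ℝ] ℝ) → ℝ}
    (hg : LS u z g) (hh : LS u z h) : LS u z (fun z => g z + h z) := by
  intro a ha
  have h1 : g z - (g z + h z - a) / 2 < g z := by simp only at ha; linarith
  have h2 : h z - (g z + h z - a) / 2 < h z := by simp only at ha; linarith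
  filter_upwards [hg _ h1, hh _ h2] with n hn hn'
  linarith

lemma LS.const_mul {u : ℕ → (X →L[ℝ] ℝ)} {z : X →L[ℝ] ℝ} {g : (X →L[ℝ] ℝ) → ℝ}
    (hg : LS u z g) {c : ℝ} (hc : 0 < c) : LS u z (fun z => c * g z) := by
  intro a ha
  have h1 : a / c < g z := by rw [div_lt_iff₀ hc]; simp only at ha; linarith
  filter_upwards [hg _ h1] with n hn
  rw [div_lt_iff₀ hc] at hn; linarith

lemma LS.of_tendsto {u : ℕ → (X →L[ℝ] ℝ)} {z : X →L[ℝ] ℝ} {g : (X →L[ℝ] ℝ) → ℝ}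
    (hg : Tendsto (fun n => g (u n)) atTop (𝓝 (g z))) : LS u z g := by
  intro a ha
  exact hg.eventually (lt_mem_nhds ha)

lemma LS.sum {u : ℕ → (X →L[ℝ] ℝ)} {z : X →L[ℝ] ℝ} {g : ℕ → (X →L[ℝ] ℝ) → ℝ}
    (s : Finset ℕ) (hg : ∀ k ∈ s, LS u z (g k)) : LS u z (fun z => ∑ k ∈ s, g k z) := by
  classical
  induction s using Finset.induction_on with
  | empty => exact LS.of_tendsto (by simp)
  | insert a s ha ih =>
    have h1 := (hg a (Finset.mem_insert_self _ _)).add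
      (ih fun k hk => hg k (Finset.mem_insert_of_mem hk))
    intro b hb
    have := h1 b (by simpa [Finset.sum_insert ha] using hb)
    simpa [Finset.sum_insert ha] using this

lemma LS.tsum {u : ℕ → (X →L[ℝ] ℝ)} {z : X →L[ℝ] ℝ} {g : ℕ → (X →L[ℝ] ℝ) → ℝ}
    (hg : ∀ k, LS u z (g k)) (h0 : ∀ k z, 0 ≤ g k z) (hs : ∀ z, Summable fun k => g k z) :
    LS u z (fun z => ∑' k, g k z) := by
  intro a ha
  have h1 := (hs z).hasSum
  have h2 : ∀ᶠ s : Finset ℕ in atTop, a < ∑ k ∈ s, g k z := h1.eventually (lt_mem_nhds ha)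
  obtain ⟨s, hs'⟩ := h2.exists
  filter_upwards [LS.sum s (fun k _ => hg k) a hs'] with n hn
  exact hn.trans_le ((hs _).sum_le_tsum _ fun k _ => h0 k _)

end

end Pool.Agent.L471c81
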