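import Pool.Agent.Lib.MP_471c81_an.BSet

set_option autoImplicit false

namespace Pool.Agent.L471c81

open Filter Topology

section

variable {X : Type*} [NormedAddCommGroup X] [NormedSpace ℝ X]
variable {W : Type*} [NormedAddCommGroup W] [NormedSpace ℝ W]

/-- The properties of the smooth convex function vanishing exactly on the range of `ι`. -/
structure Perp (ι : W →L[ℝ] X) (ψ : X → ℝ) : Prop where
  nonneg : ∀ x, 0 ≤ ψ x
  even : ∀ x, ψ (-x) = ψ x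
  conv : ConvexOn ℝ Set.univ ψ
  diff : Differentiable ℝ ψ
  zero : ∀ y, ψ (ι y) = 0
  pos : ∀ x, x ∉ Set.range ι → 0 < ψ x

/-- the function to be maximised -/
def FF (Ψ : (X →L[ℝ] ℝ) → ℝ) (ψ : X → ℝ) (R : ℝ) (x : X) (z : X →L[ℝ] ℝ) : ℝ :=
  z x + ψ x * (R - Ψ z)

/-- the maximum function -/
noncomputable def GG (Ψ : (X →L[ℝ] ℝ) → ℝ) (ψ : X → ℝ) (R : ℝ) (B : Set (X →L[ℝ] ℝ))
    (x : X) : ℝ :=
  sSup (FF Ψ ψ R x '' B)

variable {ι : W →L[ℝ] X} {N : Seminorm ℝ W} {B : Set (X →L[ℝ] ℝ)} {Ψ : (X →L[ℝ] ℝ) → ℝ}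
  {ψ : X → ℝ} {R S : ℝ}

lemma apply_le_of_norm_le {z : X →L[ℝ] ℝ} (h : ‖z‖ ≤ S) (x : X) : |z x| ≤ S * ‖x‖ := by
  calc |z x| = ‖z x‖ := rfl
    _ ≤ ‖z‖ * ‖x‖ := ContinuousLinearMap.le_opNorm _ _
    _ ≤ S * ‖x‖ := by gcongr

lemma FF_bddAbove (hψ : Perp ι ψ) (hΨ : Good Ψ)
    (hS : ∀ z ∈ B, ‖z‖ ≤ S) (x : X) :
    BddAbove (FF Ψ ψ R x '' B) := by
  refine ⟨S * ‖x‖ + ψ x * R, ?_⟩
  rintro _ ⟨z, hz, rfl⟩
  unfold FF
  have h1 := (abs_le.mp (apply_le_of_norm_le (hS z hz) x)).2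
  have h2 := hψ.nonneg x
  have h3 := hΨ.nonneg z
  have : ψ x * (R - Ψ z) ≤ ψ x * R := by gcongr; linarith
  linarith

lemma FF_le_GG (hψ : Perp ι ψ) (hΨ : Good Ψ) (hS : ∀ z ∈ B, ‖z‖ ≤ S) (x : X) {z : X →L[ℝ] ℝ}
    (hz : z ∈ B) : FF Ψ ψ R x z ≤ GG Ψ ψ R B x :=
  le_csSup (FF_bddAbove hψ hΨ hS x) ⟨z, hz, rfl⟩

lemma GG_le (hB : B.Nonempty) {x : X} {t : ℝ} (h : ∀ z ∈ B, FF Ψ ψ R x z ≤ t) :
    GG Ψ ψ R B x ≤ t := by
  refine csSup_le (hB.image _) ?_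
  rintro _ ⟨z, hz, rfl⟩
  exact h z hz

/-- Lipschitz type bound -/
lemma GG_sub_le (hψ : Perp ι ψ) (hΨ : Good Ψ) (hB : B.Nonempty) (hS : ∀ z ∈ B, ‖z‖ ≤ S)
    (hR : ∀ z ∈ B, Ψ z ≤ R) (x x' : X) :
    GG Ψ ψ R B x ≤ GG Ψ ψ R B x' + (S * ‖x - x'‖ + R * |ψ x - ψ x'|) := by
  refine GG_le hB fun z hz => ?_
  have h1 := FF_le_GG (R := R) hψ hΨ hS x' hz
  have h2 := (abs_le.mp (apply_le_of_norm_le (hS z hz) (x - x'))).2
  have h3 : (ψ x - ψ x') * (R - Ψ z) ≤ R * |ψ x - ψ x'| := by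
    have h4 : 0 ≤ R - Ψ z := by linarith [hR z hz]
    have h5 : R - Ψ z ≤ R := by linarith [hΨ.nonneg z]
    calc (ψ x - ψ x') * (R - Ψ z) ≤ |ψ x - ψ x'| * (R - Ψ z) := by
          gcongr; exact le_abs_self _
      _ ≤ |ψ x - ψ x'| * R := by gcongr
      _ = _ := mul_comm _ _
  unfold FF at *
  rw [map_sub] at h2
  nlinarith

lemma GG_continuous (hψ : Perp ι ψ) (hΨ : Good Ψ) (hB : B.Nonempty) (hS : ∀ z ∈ B, ‖z‖ ≤ S)
    (hR : ∀ z ∈ B, Ψ z ≤ R) : Continuous (GG Ψ ψ R B) := by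
  rw [continuous_iff_continuousAt]
  intro x0
  have hbound : ∀ x, |GG Ψ ψ R B x - GG Ψ ψ R B x0| ≤ S * ‖x - x0‖ + R * |ψ x - ψ x0| := by
    intro x
    rw [abs_le]
    have h1 := GG_sub_le hψ hΨ hB hS hR x x0
    have h2 := GG_sub_le hψ hΨ hB hS hR x0 x
    rw [norm_sub_rev x0 x, abs_sub_comm (ψ x0) (ψ x)] at h2
    constructor <;> linarith
  have hlim : Tendsto (fun x => S * ‖x - x0‖ + R * |ψ x - ψ x0|) (𝓝 x0) (𝓝 0) := by
    have hc := hψ.diff.continuous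
    have : Continuous fun x => S * ‖x - x0‖ + R * |ψ x - ψ x0| := by fun_prop
    have h := this.tendsto x0
    simpa using h
  rw [ContinuousAt, tendsto_iff_dist_tendsto_zero]
  refine squeeze_zero (fun _ => dist_nonneg) (fun x => ?_) hlim
  rw [Real.dist_eq]; exact hbound x

/-- almost maximisers converge along a subsequence -/
lemma exists_subseq_max [TopologicalSpace.SeparableSpace X]
    (hψ : Perp ι ψ) (hΨ : Good Ψ) (hB : BSet ι N B) (hS : ∀ z ∈ B, ‖z‖ ≤ S)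
    (x : ℕ → X) (x0 : X) (hx : Tendsto x atTop (𝓝 x0))
    (hpos : 0 < ψ x0) (z : ℕ → (X →L[ℝ] ℝ)) (hz : ∀ n, z n ∈ B)
    (hlim : Tendsto (fun n => FF Ψ ψ R (x n) (z n)) atTop (𝓝 (GG Ψ ψ R B x0))) :
    ∃ (φ : ℕ → ℕ) (z' : X →L[ℝ] ℝ), StrictMono φ ∧ z' ∈ B ∧
      Tendsto (fun n => z (φ n)) atTop (𝓝 z') ∧ FF Ψ ψ R x0 z' = GG Ψ ψ R B x0 := by
  obtain ⟨φ, z', hφ, hpw⟩ := exists_subseq_pw z (fun n => hS _ (hz n))
  have hz'B : z' ∈ B := hB.closed _ _ (fun n => hz (φ n)) hpw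
  refine ⟨φ, z', hφ, hz'B, ?_⟩
  have hxφ := hx.comp hφ.tendsto_atTop
  have hlimφ := hlim.comp hφ.tendsto_atTop
  -- the pairing converges
  have hpair : Tendsto (fun n => z (φ n) (x (φ n))) atTop (𝓝 (z' x0)) := by
    have h1 : Tendsto (fun n => z (φ n) (x (φ n) - x0)) atTop (𝓝 0) := by
      have h2 : Tendsto (fun n => S * ‖x (φ n) - x0‖) atTop (𝓝 0) := by
        have h3 : Tendsto (fun n => x (φ n) - x0) atTop (𝓝 0) := by
          simpa using hxφ.sub_const x0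
        simpa using h3.norm.const_mul S
      refine squeeze_zero_norm (fun n => ?_) h2
      exact apply_le_of_norm_le (hS _ (hz _)) _
    have h2 := h1.add (hpw x0)
    rw [zero_add] at h2
    refine h2.congr fun n => ?_
    rw [map_sub]; ring
  have hψlim : Tendsto (fun n => ψ (x (φ n))) atTop (𝓝 (ψ x0)) :=
    (hψ.diff.continuous.tendsto x0).comp hxφ
  -- the values of `Ψ` converge
  have h1 : Tendsto (fun n => ψ (x (φ n)) * (R - Ψ (z (φ n)))) atTop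
      (𝓝 (GG Ψ ψ R B x0 - z' x0)) := by
    refine (hlimφ.sub hpair).congr fun n => ?_
    simp only [Function.comp, FF]; ring
  have h2 : Tendsto (fun n => Ψ (z (φ n))) atTop
      (𝓝 (R - (GG Ψ ψ R B x0 - z' x0) / ψ x0)) := by
    have h3 := (h1.div hψlim hpos.ne').const_sub R
    refine h3.congr' ?_
    filter_upwards [hψlim.eventually (lt_mem_nhds hpos)] with n hn
    simp only [Pi.div_apply]
    field_simp
    ring
  have h3 : R - (GG Ψ ψ R B x0 - z' x0) / ψ x0 ≤ Ψ z' := by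
    have h4 := FF_le_GG (R := R) hψ hΨ hS x0 hz'B
    unfold FF at h4
    rw [sub_le_iff_le_add, ← sub_le_iff_le_add', le_div_iff₀ hpos]
    linarith
  have hkk := hΨ.kk _ z' hpw (fun a ha => h2.eventually (gt_mem_nhds (h3.trans_lt ha)))
  refine ⟨hkk, ?_⟩
  have h4 : Ψ z' = R - (GG Ψ ψ R B x0 - z' x0) / ψ x0 :=
    tendsto_nhds_unique ((hΨ.cont.tendsto z').comp hkk) h2
  unfold FF
  rw [h4]
  field_simp
  ring

lemma exists_max [TopologicalSpace.SeparableSpace X]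
    (hψ : Perp ι ψ) (hΨ : Good Ψ) (hB : BSet ι N B) (hS : ∀ z ∈ B, ‖z‖ ≤ S)
    {x0 : X} (hpos : 0 < ψ x0) :
    ∃ z ∈ B, FF Ψ ψ R x0 z = GG Ψ ψ R B x0 := by
  obtain ⟨t, -, ht, htS⟩ := exists_seq_tendsto_sSup
    (Set.Nonempty.image (FF Ψ ψ R x0) ⟨0, hB.zero_mem⟩) (FF_bddAbove hψ hΨ hS x0)
  choose z hz hz2 using htS
  obtain ⟨φ, z', hφ, hz', -, h⟩ := exists_subseq_max (R := R) hψ hΨ hB hS (fun _ => x0) x0
    tendsto_const_nhds hpos z hz (by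
      refine Tendsto.congr (fun n => ?_) ht
      rw [hz2])
  exact ⟨z', hz', h⟩

lemma max_unique (hψ : Perp ι ψ) (hΨ : Good Ψ) (hB : BSet ι N B) (hS : ∀ z ∈ B, ‖z‖ ≤ S)
    {x0 : X} (hpos : 0 < ψ x0) {z z' : X →L[ℝ] ℝ} (hz : z ∈ B) (hz' : z' ∈ B)
    (h : FF Ψ ψ R x0 z = GG Ψ ψ R B x0) (h' : FF Ψ ψ R x0 z' = GG Ψ ψ R B x0) : z = z' := by
  by_contra hne
  have h1 := FF_le_GG (R := R) hψ hΨ hS x0 (hB.mid_mem z hz z' hz')
  have h2 := hΨ.sconv z z' hne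
  unfold FF at *
  simp only [smul_apply, add_apply, smul_eq_mul] at h1
  nlinarith

/-- differentiability off the subspace -/
theorem GG_differentiableAt_of_pos [TopologicalSpace.SeparableSpace X]
    (hψ : Perp ι ψ) (hΨ : Good Ψ) (hB : BSet ι N B) (hS : ∀ z ∈ B, ‖z‖ ≤ S)
    (hR : ∀ z ∈ B, Ψ z ≤ R) {x0 : X} (hpos : 0 < ψ x0) :
    DifferentiableAt ℝ (GG Ψ ψ R B) x0 := by
  classical
  have hBne : B.Nonempty := ⟨0, hB.zero_mem⟩
  -- the maximiser function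
  have hex : ∀ x, ∃ z ∈ B, 0 < ψ x → FF Ψ ψ R x z = GG Ψ ψ R B x := by
    intro x
    by_cases hx : 0 < ψ x
    · obtain ⟨z, hz, h⟩ := exists_max (R := R) hψ hΨ hB hS hx
      exact ⟨z, hz, fun _ => h⟩
    · exact ⟨0, hB.zero_mem, fun h => absurd h hx⟩
  choose ζ hζB hζ using hex
  have hψc := hψ.diff.continuous
  have hGc := GG_continuous hψ hΨ hBne hS hR
  have hζcont : Tendsto ζ (𝓝 x0) (𝓝 (ζ x0)) := by
    refine tendsto_of_subseq_tendsto ?_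
    intro xs hxs
    obtain ⟨φ, z', hφ, hz'B, hz'lim, hz'⟩ := exists_subseq_max (R := R) hψ hΨ hB hS xs x0 hxs hpos
      (fun n => ζ (xs n)) (fun n => hζB _) (by
        have h1 : Tendsto (fun n => GG Ψ ψ R B (xs n)) atTop (𝓝 (GG Ψ ψ R B x0)) :=
          (hGc.tendsto x0).comp hxs
        refine h1.congr' ?_
        have h2 : Tendsto (fun n => ψ (xs n)) atTop (𝓝 (ψ x0)) := (hψc.tendsto x0).comp hxs
        filter_upwards [h2.eventually (lt_mem_nhds hpos)] with n hn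
        rw [hζ _ hn])
    refine ⟨φ, ?_⟩
    have : z' = ζ x0 := max_unique (R := R) hψ hΨ hB hS hpos hz'B (hζB x0) hz' (hζ x0 hpos)
    rw [← this]
    exact hz'lim
  -- the error term
  let a0 := ζ x0
  let b0 := R - Ψ (ζ x0)
  let D : X → ℝ := fun x => GG Ψ ψ R B x - GG Ψ ψ R B x0 - a0 (x - x0) - b0 * (ψ x - ψ x0)
  have hD0 : D x0 = 0 := by simp [D]
  have hDlow : ∀ x, 0 ≤ D x := by
    intro x
    have h1 := FF_le_GG (R := R) hψ hΨ hS x (hζB x0)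
    have h2 := hζ x0 hpos
    simp only [D, a0, b0]
    unfold FF at h1 h2
    rw [← h2, map_sub]
    nlinarith
  have hDup : ∀ᶠ x in 𝓝 x0, D x ≤ (ζ x - a0) (x - x0) + (Ψ (ζ x0) - Ψ (ζ x)) * (ψ x - ψ x0) := by
    filter_upwards [hψc.continuousAt.eventually (lt_mem_nhds hpos)] with x hx
    have h1 := FF_le_GG (R := R) hψ hΨ hS x0 (hζB x)
    have h2 := hζ x hx
    simp only [D, a0, b0]
    unfold FF at h1 h2
    rw [← h2]
    simp only [sub_apply, map_sub]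
    nlinarith
  have hψO : (fun x => ψ x - ψ x0) =O[𝓝 x0] fun x => x - x0 :=
    (hψ.diff x0).hasFDerivAt.isBigO_sub
  have ho1 : (fun x => (ζ x - a0) (x - x0)) =o[𝓝 x0] fun x => x - x0 := by
    have h1 : Tendsto (fun x => ‖ζ x - a0‖) (𝓝 x0) (𝓝 0) := by
      have := hζcont.sub_const a0
      simpa [a0] using this.norm
    rw [Asymptotics.isLittleO_iff]
    intro c hc
    filter_upwards [h1.eventually (gt_mem_nhds hc)] with x hx
    calc ‖(ζ x - a0) (x - x0)‖ ≤ ‖ζ x - a0‖ * ‖x - x0‖ := ContinuousLinearMap.le_opNorm _ _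
      _ ≤ c * ‖x - x0‖ := by gcongr
  have ho2 : (fun x => (Ψ (ζ x0) - Ψ (ζ x)) * (ψ x - ψ x0)) =o[𝓝 x0] fun x => x - x0 := by
    have h1 : Tendsto (fun x => Ψ (ζ x0) - Ψ (ζ x)) (𝓝 x0) (𝓝 0) := by
      have := ((hΨ.cont.tendsto (ζ x0)).comp hζcont).const_sub (Ψ (ζ x0))
      simpa using this
    have h2 : (fun x => Ψ (ζ x0) - Ψ (ζ x)) =o[𝓝 x0] fun _ => (1 : ℝ) := by
      rw [Asymptotics.isLittleO_one_iff]; exact h1
    have h3 := h2.mul_isBigO hψO.norm_right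
    simpa using h3
  have hDder : HasFDerivAt D (0 : X →L[ℝ] ℝ) x0 := by
    rw [hasFDerivAt_iff_isLittleO]
    have h1 := ho1.add ho2
    refine Asymptotics.IsLittleO.congr' (f₁ := D) (g₁ := fun x => x - x0) ?_ ?_ EventuallyEq.rfl
    · refine Asymptotics.IsBigO.trans_isLittleO ?_ h1
      refine Asymptotics.IsBigO.of_bound 1 ?_
      filter_upwards [hDup] with x hx
      rw [one_mul, Real.norm_of_nonneg (hDlow x)]
      exact hx.trans (le_abs_self _)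
    · exact Eventually.of_forall fun x => by simp [hD0]
  have hG : GG Ψ ψ R B = fun x => GG Ψ ψ R B x0 + a0 (x - x0) + b0 * (ψ x - ψ x0) + D x := by
    ext x; simp only [D]; ring
  rw [hG]
  have hψd := hψ.diff x0
  have hDd := hDder.differentiableAt
  fun_prop

/-- differentiability on the subspace -/
theorem GG_differentiableAt_of_range
    (hψ : Perp ι ψ) (hΨ : Good Ψ) (hB : BSet ι N B) (hS : ∀ z ∈ B, ‖z‖ ≤ S)
    (hR : ∀ z ∈ B, Ψ z ≤ R) {y0 : W} (hy0 : y0 ≠ 0) :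
    DifferentiableAt ℝ (GG Ψ ψ R B) (ι y0) := by
  have hBne : B.Nonempty := ⟨0, hB.zero_mem⟩
  have hR0 : 0 ≤ R := (hΨ.nonneg 0).trans (hR 0 hB.zero_mem)
  obtain ⟨z0, hz0B, hz0y, hz0⟩ := hB.smooth y0 hy0
  have hG0 : GG Ψ ψ R B (ι y0) = N y0 := by
    apply le_antisymm
    · refine GG_le hBne fun z hz => ?_
      unfold FF
      rw [hψ.zero, zero_mul, add_zero]
      exact hB.le z hz y0
    · have := FF_le_GG (R := R) hψ hΨ hS (ι y0) hz0B
      unfold FF at this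
      rwa [hψ.zero, zero_mul, add_zero, hz0y] at this
  -- the derivative of ψ vanishes
  have hψd : HasFDerivAt ψ (0 : X →L[ℝ] ℝ) (ι y0) := by
    have h1 := (hψ.diff (ι y0)).hasFDerivAt
    have h2 : IsLocalMin ψ (ι y0) := by
      refine Eventually.of_forall fun x => ?_
      rw [hψ.zero]; exact hψ.nonneg x
    have h3 := h2.fderiv_eq_zero
    rwa [h3] at h1
  have hψo : (fun x => R * ψ x) =o[𝓝 (ι y0)] fun x => x - ι y0 := by
    have h1 := hψd.isLittleO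
    simp only [hψ.zero, sub_zero, zero_apply] at h1
    exact h1.const_mul_left R
  refine HasFDerivAt.differentiableAt (f' := z0) ?_
  rw [hasFDerivAt_iff_isLittleO, Asymptotics.isLittleO_iff]
  intro c hc
  obtain ⟨δ, hδ, hδx⟩ := hz0 (c / 2) (by positivity)
  have h2 := hψo.def (show (0 : ℝ) < c / 2 by positivity)
  have h3 : ∀ᶠ x in 𝓝 (ι y0), ‖x - ι y0‖ < δ := by
    rw [Metric.eventually_nhds_iff]
    exact ⟨δ, hδ, fun x hx => by rwa [dist_eq_norm] at hx⟩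
  filter_upwards [h2, h3] with x hx1 hx2
  rw [hG0]
  have hlow : N y0 + z0 (x - ι y0) ≤ GG Ψ ψ R B x := by
    have h4 := FF_le_GG (R := R) hψ hΨ hS x hz0B
    unfold FF at h4
    rw [map_sub, hz0y]
    have h5 : 0 ≤ ψ x * (R - Ψ z0) :=
      mul_nonneg (hψ.nonneg x) (by linarith [hR z0 hz0B])
    linarith
  have hup : GG Ψ ψ R B x ≤ N y0 + z0 (x - ι y0) + c / 2 * ‖x - ι y0‖ + R * ψ x := by
    refine GG_le hBne fun z hz => ?_
    have h4 := hδx x hx2 z hz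
    unfold FF
    have h5 : ψ x * (R - Ψ z) ≤ R * ψ x := by
      have := hψ.nonneg x
      have := hΨ.nonneg z
      nlinarith
    linarith
  have h6 : R * ψ x ≤ c / 2 * ‖x - ι y0‖ := (le_abs_self _).trans hx1
  rw [Real.norm_eq_abs, abs_le]
  have h7 : 0 ≤ c * ‖x - ι y0‖ := by positivity
  constructor <;> linarith

lemma GG_range (hψ : Perp ι ψ) (hΨ : Good Ψ) (hB : BSet ι N B) (hS : ∀ z ∈ B, ‖z‖ ≤ S)
    (y : W) : GG Ψ ψ R B (ι y) = N y := by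
  have hBne : B.Nonempty := ⟨0, hB.zero_mem⟩
  rcases eq_or_ne y 0 with rfl | hy0
  · rw [map_zero, map_zero]
    have hψ0 : ψ 0 = 0 := by simpa using hψ.zero 0
    apply le_antisymm
    · refine GG_le hBne fun z hz => ?_
      unfold FF
      rw [hψ0]; simp
    · have := FF_le_GG (R := R) hψ hΨ hS 0 hB.zero_mem
      unfold FF at this
      rw [hψ0] at this
      simpa using this
  obtain ⟨z0, hz0B, hz0y, -⟩ := hB.smooth y hy0
  apply le_antisymm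
  · refine GG_le hBne fun z hz => ?_
    unfold FF
    rw [hψ.zero, zero_mul, add_zero]
    exact hB.le z hz y
  · have := FF_le_GG (R := R) hψ hΨ hS (ι y) hz0B
    unfold FF at this
    rwa [hψ.zero, zero_mul, add_zero, hz0y] at this

lemma GG_even (hψ : Perp ι ψ) (hΨ : Good Ψ) (hB : BSet ι N B) (hS : ∀ z ∈ B, ‖z‖ ≤ S)
    (x : X) : GG Ψ ψ R B (-x) = GG Ψ ψ R B x := by
  have hBne : B.Nonempty := ⟨0, hB.zero_mem⟩
  have key : ∀ x, GG Ψ ψ R B (-x) ≤ GG Ψ ψ R B x := by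
    intro x
    refine GG_le hBne fun z hz => ?_
    have h1 := FF_le_GG (R := R) hψ hΨ hS x (hB.neg_mem z hz)
    unfold FF at *
    rw [hΨ.even] at h1
    rw [hψ.even, map_neg]
    simpa using h1
  apply le_antisymm (key x)
  simpa using key (-x)

lemma GG_convex (hψ : Perp ι ψ) (hΨ : Good Ψ) (hB : BSet ι N B) (hS : ∀ z ∈ B, ‖z‖ ≤ S)
    (hR : ∀ z ∈ B, Ψ z ≤ R) : ConvexOn ℝ Set.univ (GG Ψ ψ R B) := by
  have hBne : B.Nonempty := ⟨0, hB.zero_mem⟩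
  refine ⟨convex_univ, fun x _ x' _ a b ha hb hab => ?_⟩
  refine GG_le hBne fun z hz => ?_
  have h1 := FF_le_GG (R := R) hψ hΨ hS x hz
  have h2 := FF_le_GG (R := R) hψ hΨ hS x' hz
  have h3 := hψ.conv.2 (Set.mem_univ x) (Set.mem_univ x') ha hb hab
  have h4 : 0 ≤ R - Ψ z := by linarith [hR z hz]
  simp only [smul_eq_mul] at h3 ⊢
  calc FF Ψ ψ R (a • x + b • x') z
      = a * z x + b * z x' + ψ (a • x + b • x') * (R - Ψ z) := by
        unfold FF; simp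
    _ ≤ a * z x + b * z x' + (a * ψ x + b * ψ x') * (R - Ψ z) := by gcongr
    _ = a * FF Ψ ψ R x z + b * FF Ψ ψ R x' z := by unfold FF; ring
    _ ≤ _ := by gcongr

lemma GG_lower (hψ : Perp ι ψ) (hΨ : Good Ψ) (hS : ∀ z ∈ B, ‖z‖ ≤ S)
    (hR : ∀ z ∈ B, Ψ z ≤ R) {c : ℝ} (hc : 0 < c) (hball : ∀ z : X →L[ℝ] ℝ, ‖z‖ ≤ c → z ∈ B)
    (x : X) : c * ‖x‖ ≤ GG Ψ ψ R B x := by
  rcases eq_or_ne x 0 with rfl | hx
  · have h0 : (0 : X →L[ℝ] ℝ) ∈ B := hball 0 (by simpa using hc.le)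
    have := FF_le_GG (R := R) hψ hΨ hS 0 h0
    unfold FF at this
    have h1 : 0 ≤ ψ 0 * (R - Ψ 0) := mul_nonneg (hψ.nonneg 0) (by linarith [hR 0 h0])
    simp only [map_zero, zero_add, norm_zero, mul_zero] at this ⊢
    linarith
  obtain ⟨g, hg1, hg2⟩ := exists_dual_vector ℝ x (norm_ne_zero_iff.mpr hx)
  have hgB : c • g ∈ B := hball _ (by rw [norm_smul, hg1, Real.norm_of_nonneg hc.le]; simp)
  have := FF_le_GG (R := R) hψ hΨ hS x hgB
  unfold FF at this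
  have h1 : 0 ≤ ψ x * (R - Ψ (c • g)) := mul_nonneg (hψ.nonneg x) (by linarith [hR _ hgB])
  rw [smul_apply, hg2] at this
  simp only [smul_eq_mul] at this
  have h2 : c * ((‖x‖ : ℝ)) ≤ GG Ψ ψ R B x := by
    have h3 : ((‖x‖ : ℝ)) = RCLike.ofReal ‖x‖ := rfl
    rw [h3]
    linarith
  exact h2

end

end Pool.Agent.L471c81
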