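import Pool.Agent.Lib.MP_471c81_an.Perp

set_option autoImplicit false

namespace Pool.Agent.L471c81

open Filter Topology TopologicalSpace

section

/-- If the dual of a normed space is separable, so is the space. -/
theorem separable_of_dual {E : Type*} [NormedAddCommGroup E] [NormedSpace ℝ E]
    [SeparableSpace (E →L[ℝ] ℝ)] : SeparableSpace E := by
  let f : ℕ → (E →L[ℝ] ℝ) := denseSeq (E →L[ℝ] ℝ)
  have hx : ∀ n, ∃ x : E, ‖x‖ ≤ 1 ∧ ‖f n‖ / 2 ≤ |f n x| := by
    intro n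
    rcases eq_or_lt_of_le (norm_nonneg (f n)) with h | h
    · exact ⟨0, by simp, by rw [← h]; simp⟩
    · obtain ⟨x, hx1, hx2⟩ := ContinuousLinearMap.exists_lt_apply_of_lt_opNorm (f n)
        (show ‖f n‖ / 2 < ‖f n‖ by linarith)
      exact ⟨x, hx1.le, hx2.le⟩
  choose x hx1 hx2 using hx
  let S : Submodule ℝ E := (Submodule.span ℝ (Set.range x)).topologicalClosure
  have hSsep : IsSeparable (S : Set E) := by
    have h1 : IsSeparable (Set.range x) := isSeparable_range (continuous_of_discreteTopology)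
    have h2 : IsSeparable ((Submodule.span ℝ (Set.range x) : Submodule ℝ E) : Set E) := h1.span
    simpa [S, Submodule.topologicalClosure_coe] using h2.closure
  have hStop : (S : Set E) = Set.univ := by
    by_contra hne
    obtain ⟨v, hv⟩ := (Set.ne_univ_iff_exists_notMem _).mp hne
    have hcl : IsClosed (Set.range (S.subtypeL)) := by
      have : Set.range (S.subtypeL) = (S : Set E) := by simp
      rw [this]
      exact Submodule.isClosed_topologicalClosure _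
    obtain ⟨ν, hν0, hνv⟩ := exists_perp S.subtypeL hcl (x := v) (by simpa using hv)
    have hνpos : 0 < ‖ν‖ := by
      rw [norm_pos_iff]
      rintro rfl
      simp at hνv
    obtain ⟨n, hn⟩ := (denseRange_denseSeq (E →L[ℝ] ℝ)).exists_dist_lt ν
      (show (0 : ℝ) < ‖ν‖ / 4 by positivity)
    rw [dist_eq_norm] at hn
    have hxnS : x n ∈ S := Submodule.le_topologicalClosure _ (Submodule.subset_span ⟨n, rfl⟩)
    have hνx : ν (x n) = 0 := hν0 ⟨x n, hxnS⟩
    have h1 : |f n (x n)| ≤ ‖ν‖ / 4 := by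
      have h2 : f n (x n) = -((ν - f n) (x n)) := by
        rw [sub_apply, hνx]; ring
      rw [h2, abs_neg]
      calc |(ν - f n) (x n)| ≤ ‖ν - f n‖ * ‖x n‖ := (ν - f n).le_opNorm _
        _ ≤ (‖ν‖ / 4) * 1 := by
          have h3 : ‖ν - f n‖ ≤ ‖ν‖ / 4 := hn.le
          have h4 := hx1 n
          gcongr
        _ = ‖ν‖ / 4 := mul_one _
    have h2 : ‖ν‖ ≤ ‖f n‖ + ‖ν‖ / 4 := by
      calc ‖ν‖ = ‖f n + (ν - f n)‖ := by congr 1; abel
        _ ≤ ‖f n‖ + ‖ν - f n‖ := norm_add_le _ _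
        _ ≤ _ := by
          have h3 : ‖ν - f n‖ ≤ ‖ν‖ / 4 := hn.le
          gcongr
    have h3 := hx2 n
    linarith
  rw [hStop] at hSsep
  exact isSeparable_univ_iff.mp hSsep

/-- The main theorem: smooth extension of smooth norms through an isometric embedding with closed
range, when the dual is separable. -/
theorem extension {X : Type*} [NormedAddCommGroup X] [NormedSpace ℝ X]
    {W : Type*} [NormedAddCommGroup W] [NormedSpace ℝ W]
    [SeparableSpace X] [SeparableSpace (X →L[ℝ] ℝ)]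
    (ι : W →L[ℝ] X) (hι : ∀ y, ‖ι y‖ = ‖y‖) (hcl : IsClosed (Set.range ι)) (hHB : HB ι)
    (N : Seminorm ℝ W)
    (hN : ∃ c C : ℝ, 0 < c ∧ 0 < C ∧ ∀ y, c * ‖y‖ ≤ N y ∧ N y ≤ C * ‖y‖)
    (hd : ∀ y : W, y ≠ 0 → DifferentiableAt ℝ N y) :
    ∃ M : Seminorm ℝ X,
      (∃ c C : ℝ, 0 < c ∧ 0 < C ∧ ∀ x, c * ‖x‖ ≤ M x ∧ M x ≤ C * ‖x‖) ∧
      (∀ x, x ≠ 0 → DifferentiableAt ℝ M x) ∧
      ∀ y : W, M (ι y) = N y := by
  have hΨ := good_Psi (denseSeq (X →L[ℝ] ℝ)) (denseRange_denseSeq _) (denseSeq X)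
    (denseRange_denseSeq _)
  set Ψ := Psi (denseSeq (X →L[ℝ] ℝ)) (denseSeq X) with hΨdef
  obtain ⟨B, hB⟩ := exists_BSet hΨ ι hι hHB N hN hd
  obtain ⟨ψ, hψ⟩ := exists_Perp ι hcl
  obtain ⟨S, hS0, hS⟩ := hB.bdd
  obtain ⟨C, hC, hCz⟩ := hΨ.bdd
  set R : ℝ := C * (1 + S ^ 2) with hRdef
  have hR : ∀ z ∈ B, Ψ z ≤ R := by
    intro z hz
    refine (hCz z).trans ?_
    have := hS z hz
    rw [hRdef]
    gcongr
  obtain ⟨c, hc, hball⟩ := hB.ball
  have hBne : B.Nonempty := ⟨0, hB.zero_mem⟩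
  have hG0 : GG Ψ ψ R B 0 = 0 := by
    have := GG_range (R := R) hψ hΨ hB hS 0
    simpa using this
  obtain ⟨M, hM1, hM2, hM3⟩ := exists_seminorm_of_convex
    (GG_convex hψ hΨ hB hS hR) (GG_continuous hψ hΨ hBne hS hR)
    (GG_even (R := R) hψ hΨ hB hS) hG0 hc (GG_lower hψ hΨ hS hR hc hball)
    (by
      intro x hx
      by_cases hxr : x ∈ Set.range ι
      · obtain ⟨y, rfl⟩ := hxr
        have hy : y ≠ 0 := by
          rintro rfl
          simp at hx
        exact GG_differentiableAt_of_range hψ hΨ hB hS hR hy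
      · exact GG_differentiableAt_of_pos hψ hΨ hB hS hR (hψ.pos x hxr))
  refine ⟨M, hM1, hM2, fun y => ?_⟩
  rw [hM3 (ι y), GG_range (R := R) hψ hΨ hB hS y]
  intro t ht
  rw [← map_smul, GG_range (R := R) hψ hΨ hB hS, GG_range (R := R) hψ hΨ hB hS, map_smul_eq_mul,
    Real.norm_of_nonneg ht]

end

end Pool.Agent.L471c81
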