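import Pool.Agent.Lib.MP_471c81_an.GFun

set_option autoImplicit false

namespace Pool.Agent.L471c81

open Filter Topology

section

variable {X : Type*} [NormedAddCommGroup X] [NormedSpace ℝ X]
variable {W : Type*} [NormedAddCommGroup W] [NormedSpace ℝ W]

/-- a functional vanishing on the range of `ι` and not at `x` -/
lemma exists_perp (ι : W →L[ℝ] X) (hcl : IsClosed (Set.range ι)) {x : X}
    (hx : x ∉ Set.range ι) : ∃ ν : X →L[ℝ] ℝ, (∀ y, ν (ι y) = 0) ∧ ν x ≠ 0 := by
  have hconv : Convex ℝ (Set.range ι) := by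
    have : Set.range ι = ((LinearMap.range (ι : W →ₗ[ℝ] X) : Submodule ℝ X) : Set X) := by
      ext; simp
    rw [this]
    exact Submodule.convex _
  obtain ⟨f, u, hfx, hfb⟩ := geometric_hahn_banach_point_closed hconv hcl hx
  have hu : u < 0 := by simpa using hfb 0 ⟨0, map_zero ι⟩
  refine ⟨f, fun y => ?_, by linarith⟩
  by_contra hne
  have h1 := hfb (ι ((u / f (ι y)) • y)) ⟨_, rfl⟩
  rw [map_smul, map_smul, smul_eq_mul, div_mul_cancel₀ _ hne] at h1
  exact lt_irrefl _ h1

theorem exists_Perp [TopologicalSpace.SeparableSpace (X →L[ℝ] ℝ)] (ι : W →L[ℝ] X)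
    (hcl : IsClosed (Set.range ι)) : ∃ ψ : X → ℝ, Perp ι ψ := by
  have : SecondCountableTopology (X →L[ℝ] ℝ) := UniformSpace.secondCountable_of_separable _
  let A : Set (X →L[ℝ] ℝ) := {ν | ∀ y, ν (ι y) = 0}
  have : Nonempty A := ⟨⟨0, by simp [A]⟩⟩
  let ν : ℕ → (X →L[ℝ] ℝ) := fun k => (TopologicalSpace.denseSeq A k : X →L[ℝ] ℝ)
  have hνA : ∀ k y, ν k (ι y) = 0 := fun k y => (TopologicalSpace.denseSeq A k).2 y
  have hνd : ∀ x, x ∉ Set.range ι → ∃ k, ν k x ≠ 0 := by
    intro x hx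
    by_contra hcon
    push Not at hcon
    obtain ⟨μ, hμ, hμx⟩ := exists_perp ι hcl hx
    apply hμx
    have hd := TopologicalSpace.denseRange_denseSeq A
    have hc : Continuous fun a : A => (a : X →L[ℝ] ℝ) x :=
      (ContinuousLinearMap.apply ℝ ℝ x).continuous.comp continuous_subtype_val
    have : (fun a : A => (a : X →L[ℝ] ℝ) x) = fun _ => 0 :=
      hd.equalizer hc continuous_const (funext hcon)
    exact congrFun this ⟨μ, hμ⟩
  let d : ℕ → ℝ := fun k => (1/2 : ℝ) ^ k / (1 + ‖ν k‖ ^ 2)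
  have hd : ∀ k, 0 < d k := fun k => by simp only [d]; positivity
  have hdν : ∀ k, d k * ‖ν k‖ ^ 2 ≤ (1/2 : ℝ) ^ k := by
    intro k
    simp only [d]
    rw [div_mul_eq_mul_div, div_le_iff₀ (by positivity)]
    have : (0 : ℝ) < (1/2 : ℝ) ^ k := by positivity
    nlinarith
  let T : ℕ → X → ℝ := fun k x => d k * (ν k x) ^ 2
  have hT0 : ∀ k x, 0 ≤ T k x := fun k x => by have := hd k; simp only [T]; positivity
  have hTle : ∀ k x, T k x ≤ (1/2 : ℝ) ^ k * ‖x‖ ^ 2 := by
    intro k x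
    have h1 : |ν k x| ≤ ‖ν k‖ * ‖x‖ := (ν k).le_opNorm x
    have h2 : (ν k x) ^ 2 ≤ (‖ν k‖ * ‖x‖) ^ 2 := by rw [← sq_abs]; gcongr
    calc T k x ≤ d k * (‖ν k‖ * ‖x‖) ^ 2 := by
          have := hd k
          simp only [T]; gcongr
      _ = d k * ‖ν k‖ ^ 2 * ‖x‖ ^ 2 := by ring
      _ ≤ _ := by have := hdν k; gcongr
  have hTs : ∀ x, Summable fun k => T k x := fun x =>
    Summable.of_nonneg_of_le (fun k => hT0 k x) (fun k => hTle k x)
      (Summable.mul_right _ summable_geometric_two)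
  refine ⟨fun x => ∑' k, T k x, ?_, ?_, ?_, ?_, ?_, ?_⟩
  · intro x; exact tsum_nonneg fun k => hT0 k x
  · intro x
    simp only [T, map_neg, neg_sq]
  · refine ⟨convex_univ, fun x _ x' _ a b ha hb hab => ?_⟩
    simp only [smul_eq_mul]
    rw [← tsum_mul_left, ← tsum_mul_left, ← ((hTs x).mul_left a).tsum_add ((hTs x').mul_left b)]
    refine (hTs _).tsum_le_tsum (fun k => ?_) (((hTs x).mul_left a).add ((hTs x').mul_left b))
    simp only [T, map_add, map_smul, smul_eq_mul]
    have h1 : (a * ν k x + b * ν k x') ^ 2 ≤ a * (ν k x) ^ 2 + b * (ν k x') ^ 2 := by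
      have hb' : b = 1 - a := by linarith
      have h2 : a * (ν k x) ^ 2 + b * (ν k x') ^ 2 - (a * ν k x + b * ν k x') ^ 2
          = a * b * (ν k x - ν k x') ^ 2 := by subst hb'; ring
      have h3 : 0 ≤ a * b * (ν k x - ν k x') ^ 2 := by positivity
      linarith
    have := hd k
    calc d k * (a * ν k x + b * ν k x') ^ 2
        ≤ d k * (a * (ν k x) ^ 2 + b * (ν k x') ^ 2) := by gcongr
      _ = _ := by ring
  · intro x0
    let f' : ℕ → X → (X →L[ℝ] ℝ) := fun k x => (d k * (2 * ν k x)) • ν k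
    have hf' : ∀ k x, HasFDerivAt (T k) (f' k x) x := by
      intro k x
      have h1 : HasFDerivAt (fun x => ν k x) (ν k) x := (ν k).hasFDerivAt
      have h2 := (h1.pow 2).const_mul (d k)
      refine h2.congr_fderiv ?_
      ext v
      simp only [f', smul_apply, smul_eq_mul]
      simp
      ring
    have h := hasFDerivAt_tsum_of_isPreconnected (f := T) (f' := f')
      (u := fun k => (1/2 : ℝ) ^ k * (2 * (‖x0‖ + 1))) (s := Metric.ball 0 (‖x0‖ + 1))
      (x₀ := 0) (x := x0)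
      (Summable.mul_right _ summable_geometric_two) Metric.isOpen_ball
      (convex_ball _ _).isPreconnected (fun k x _ => hf' k x) (fun k x hx => ?_)
      (by simp; positivity) (hTs 0) (by simp)
    · exact h.differentiableAt
    · have hx' : ‖x‖ ≤ ‖x0‖ + 1 := (mem_ball_zero_iff.mp hx).le
      simp only [f']
      rw [norm_smul, Real.norm_eq_abs, abs_mul, abs_mul, abs_of_pos (hd k), abs_of_pos two_pos]
      have h1 : |ν k x| ≤ ‖ν k‖ * ‖x‖ := (ν k).le_opNorm x
      have := hd k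
      calc d k * (2 * |ν k x|) * ‖ν k‖ ≤ d k * (2 * (‖ν k‖ * ‖x‖)) * ‖ν k‖ := by gcongr
        _ = (d k * ‖ν k‖ ^ 2) * (2 * ‖x‖) := by ring
        _ ≤ (1/2 : ℝ) ^ k * (2 * (‖x0‖ + 1)) := by
          have := hdν k
          gcongr
  · intro y
    simp [T, hνA]
  · intro x hx
    obtain ⟨k, hk⟩ := hνd x hx
    have h1 : 0 < T k x := by
      have := hd k
      simp only [T]
      positivity
    exact h1.trans_le ((hTs x).le_tsum k fun j _ => hT0 j x)

/-- the subgradient inequality -/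
lemma subgradient {G : X → ℝ} (hconv : ConvexOn ℝ Set.univ G) {x : X} {g : X →L[ℝ] ℝ}
    (hg : HasFDerivAt G g x) (y : X) : g (y - x) ≤ G y - G x := by
  have hdir : HasDerivAt (fun t : ℝ => G (x + t • (y - x))) (g (y - x)) 0 :=
    hg.hasLineDerivAt (y - x)
  have h1 := hdir.tendsto_slope_zero_right
  refine le_of_tendsto h1 ?_
  have h2 : ∀ᶠ t : ℝ in 𝓝[>] 0, t < 1 := by
    refine mem_nhdsWithin_of_mem_nhds (gt_mem_nhds one_pos)
  filter_upwards [self_mem_nhdsWithin, h2] with t ht ht1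
  have ht' : (0 : ℝ) < t := ht
  simp only [zero_add, zero_smul, add_zero, smul_eq_mul]
  rw [inv_mul_le_iff₀ ht']
  have h3 := hconv.2 (Set.mem_univ x) (Set.mem_univ y) (show (0 : ℝ) ≤ 1 - t by linarith)
    ht'.le (by ring)
  have h4 : x + t • (y - x) = (1 - t) • x + t • y := by module
  rw [h4]
  simp only [smul_eq_mul] at h3
  linarith

theorem exists_seminorm_of_convex {G : X → ℝ} (hconv : ConvexOn ℝ Set.univ G)
    (hcont : Continuous G) (heven : ∀ x, G (-x) = G x) (h0 : G 0 = 0) {c : ℝ} (hc : 0 < c)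
    (hlow : ∀ x, c * ‖x‖ ≤ G x) (hdiff : ∀ x, x ≠ 0 → DifferentiableAt ℝ G x) :
    ∃ M : Seminorm ℝ X,
      (∃ c C : ℝ, 0 < c ∧ 0 < C ∧ ∀ x, c * ‖x‖ ≤ M x ∧ M x ≤ C * ‖x‖) ∧
      (∀ x, x ≠ 0 → DifferentiableAt ℝ M x) ∧
      ∀ x, (∀ t : ℝ, 0 ≤ t → G (t • x) = t * G x) → M x = G x := by
  let D : Set X := {x | G x ≤ 1}
  have hDconv : Convex ℝ D := by
    have := hconv.convex_le 1
    simpa [D] using this
  have hDbal : Balanced ℝ D := by
    rw [balanced_iff_smul_mem]
    intro a ha x hx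
    have hx' : G x ≤ 1 := hx
    have h1 : G (a • x) = G (|a| • x) := by
      rcases abs_cases a with ⟨h, -⟩ | ⟨h, -⟩
      · rw [h]
      · rw [h, neg_smul, heven]
    change G (a • x) ≤ 1
    rw [h1]
    have ha' : |a| ≤ 1 := ha
    have h2 := hconv.2 (Set.mem_univ x) (Set.mem_univ 0)
      (abs_nonneg a) (show (0 : ℝ) ≤ 1 - |a| by linarith) (by ring)
    simp only [smul_zero, add_zero, smul_eq_mul, h0, mul_zero] at h2
    refine h2.trans ?_
    have h3 : 0 ≤ G x := le_trans (by positivity) (hlow x)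
    calc |a| * G x ≤ 1 * 1 := by gcongr
      _ = 1 := one_mul _
  have hDnhds : D ∈ 𝓝 (0 : X) := by
    have : ∀ᶠ x in 𝓝 (0 : X), G x < 1 :=
      hcont.continuousAt.eventually (gt_mem_nhds (by rw [h0]; exact one_pos))
    filter_upwards [this] with x hx
    exact hx.le
  have hDabs : Absorbent ℝ D := absorbent_nhds_zero hDnhds
  have hDclosed : IsClosed D := isClosed_le hcont continuous_const
  let M : Seminorm ℝ X := gaugeSeminorm hDbal hDconv hDabs
  have hMdef : ∀ x, M x = gauge D x := fun x => rfl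
  have hM1 : ∀ x, M x ≤ 1 ↔ G x ≤ 1 := by
    intro x
    rw [hMdef, gauge_le_one_iff_mem_closure hDconv hDnhds, hDclosed.closure_eq]
    rfl
  have hMt : ∀ x (t : ℝ), 0 < t → (M x ≤ t ↔ G (t⁻¹ • x) ≤ 1) := by
    intro x t ht
    rw [← hM1, map_smul_eq_mul, Real.norm_of_nonneg (inv_nonneg.mpr ht.le), inv_mul_le_iff₀ ht,
      mul_one]
  have hMlow : ∀ x, c * ‖x‖ ≤ M x := by
    intro x
    have h1 := le_gauge_of_subset_closedBall (s := D) (r := c⁻¹) (x := x) hDabs
      (by positivity) (by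
        intro y hy
        rw [mem_closedBall_zero_iff]
        have h2 := (hlow y).trans hy
        rw [← le_div_iff₀' hc, one_div] at h2
        exact h2)
    rw [div_inv_eq_mul, mul_comm] at h1
    exact h1
  obtain ⟨r, hr, hrD⟩ := Metric.mem_nhds_iff.mp hDnhds
  have hMup : ∀ x, M x ≤ r⁻¹ * ‖x‖ := by
    intro x
    have h1 := mul_gauge_le_norm (s := D) (r := r) (x := x) hrD
    rw [inv_mul_eq_div, le_div_iff₀ hr, mul_comm]
    exact h1
  refine ⟨M, ⟨c, r⁻¹, hc, by positivity, fun x => ⟨hMlow x, hMup x⟩⟩, ?_, ?_⟩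
  · -- differentiability
    intro x0 hx0
    have hμ : 0 < M x0 := lt_of_lt_of_le (by have := norm_pos_iff.mpr hx0; positivity) (hMlow x0)
    set μ := M x0 with hμdef
    set x1 := μ⁻¹ • x0 with hx1
    have hx1ne : x1 ≠ 0 := smul_ne_zero (inv_ne_zero hμ.ne') hx0
    have hMx1 : M x1 = 1 := by
      rw [hx1, map_smul_eq_mul, Real.norm_of_nonneg (inv_nonneg.mpr hμ.le), ← hμdef,
        inv_mul_cancel₀ hμ.ne']
    have hGx1 : G x1 = 1 := by
      apply le_antisymm ((hM1 x1).mp hMx1.le)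
      by_contra hlt
      push Not at hlt
      have hc1 : ContinuousAt (fun s : ℝ => G (s • x1)) 1 := by fun_prop
      have h1 : ∀ᶠ s : ℝ in 𝓝 1, G (s • x1) < 1 :=
        hc1.eventually (gt_mem_nhds (by simpa using hlt))
      obtain ⟨ε, hε, hs⟩ := Metric.eventually_nhds_iff.mp h1
      have h2 := hs (y := 1 + ε / 2) (by
        rw [Real.dist_eq, add_sub_cancel_left, abs_of_pos (by positivity)]; linarith)
      have h3 := (hM1 _).mpr h2.le
      rw [map_smul_eq_mul, Real.norm_of_nonneg (by positivity), hMx1, mul_one] at h3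
      linarith
    -- differentiability at x1
    suffices h : DifferentiableAt ℝ M x1 by
      have h1 : (M : X → ℝ) = fun x => μ * M (μ⁻¹ • x) := by
        ext x
        rw [map_smul_eq_mul, Real.norm_of_nonneg (inv_nonneg.mpr hμ.le), ← mul_assoc,
          mul_inv_cancel₀ hμ.ne', one_mul]
      rw [h1]
      have h2 : DifferentiableAt ℝ (fun x => M (μ⁻¹ • x)) x0 :=
        DifferentiableAt.comp (g := M) (f := fun x => μ⁻¹ • x) x0 h (by fun_prop)
      exact h2.const_mul μ
    have hg := (hdiff x1 hx1ne).hasFDerivAt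
    set g := fderiv ℝ G x1 with hgdef
    have hgx1 : 1 ≤ g x1 := by
      have := subgradient hconv hg 0
      rw [h0, hGx1, zero_sub, map_neg] at this
      linarith
    have hgx1' : 0 < g x1 := by linarith
    have hgM : ∀ x, g x ≤ g x1 * M x := by
      intro x
      rcases eq_or_ne x 0 with rfl | hx
      · simp
      have hMx : 0 < M x :=
        lt_of_lt_of_le (by have := norm_pos_iff.mpr hx; positivity) (hMlow x)
      have h1 : G ((M x)⁻¹ • x) ≤ 1 := (hMt x (M x) hMx).mp le_rfl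
      have h2 := subgradient hconv hg ((M x)⁻¹ • x)
      rw [hGx1, map_sub, map_smul, smul_eq_mul] at h2
      have h3 : (M x)⁻¹ * g x ≤ g x1 := by linarith
      rw [inv_mul_le_iff₀ hMx] at h3
      linarith
    refine HasFDerivAt.differentiableAt (f' := (g x1)⁻¹ • g) ?_
    rw [hasFDerivAt_iff_isLittleO, Asymptotics.isLittleO_iff]
    intro ε hε
    set L : X →L[ℝ] ℝ := (g x1)⁻¹ • g with hL
    have hLx1 : L x1 = 1 := by
      simp only [hL, smul_apply, smul_eq_mul]
      exact inv_mul_cancel₀ hgx1'.ne'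
    have hgL : ∀ v, g v = g x1 * L v := by
      intro v
      simp only [hL, smul_apply, smul_eq_mul]
      field_simp
    set K : ℝ := 1 + (‖L‖ + ε) * ‖x1‖ with hK
    have hKpos : 0 < K := by positivity
    set ε' : ℝ := ε * g x1 / K with hε'
    have hε'pos : 0 < ε' := by positivity
    have hG1 := hg.isLittleO.def hε'pos
    rw [Metric.eventually_nhds_iff] at hG1
    obtain ⟨η, hη, hGη⟩ := hG1
    -- bounds making t ≥ 1/2 and the point close to x1
    have hev1 : ∀ᶠ x in 𝓝 x1, (‖L‖ + ε) * ‖x - x1‖ < 1 / 2 := by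
      have hcc : Continuous fun x => (‖L‖ + ε) * ‖x - x1‖ := by fun_prop
      exact hcc.continuousAt.eventually (gt_mem_nhds (by simp))
    have hev2 : ∀ᶠ x in 𝓝 x1, 2 * (K * ‖x - x1‖) < η := by
      have hcc : Continuous fun x => 2 * (K * ‖x - x1‖) := by fun_prop
      exact hcc.continuousAt.eventually (gt_mem_nhds (by simpa using hη))
    filter_upwards [hev1, hev2] with x hx1' hx2'
    rw [hMx1]
    have hlowb : 1 + L (x - x1) ≤ M x := by
      have h1 := hgM x
      rw [hgL x] at h1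
      have h2 := le_of_mul_le_mul_left h1 hgx1'
      rw [map_sub, hLx1]
      linarith
    have hLh : |L (x - x1)| ≤ ‖L‖ * ‖x - x1‖ := L.le_opNorm _
    have hupb : M x ≤ 1 + L (x - x1) + ε * ‖x - x1‖ := by
      set t : ℝ := 1 + L (x - x1) + ε * ‖x - x1‖ with ht
      have ht1 : |t - 1| ≤ (‖L‖ + ε) * ‖x - x1‖ := by
        have : t - 1 = L (x - x1) + ε * ‖x - x1‖ := by rw [ht]; ring
        rw [this]
        calc |L (x - x1) + ε * ‖x - x1‖| ≤ |L (x - x1)| + |ε * ‖x - x1‖| := abs_add_le _ _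
          _ ≤ ‖L‖ * ‖x - x1‖ + ε * ‖x - x1‖ := by
            rw [abs_of_nonneg (by positivity : 0 ≤ ε * ‖x - x1‖)]
            linarith
          _ = _ := by ring
      have ht2 : 1 / 2 < t := by
        have := (abs_le.mp ht1).1
        linarith
      have htpos : 0 < t := by linarith
      rw [hMt x t htpos]
      have htinv : t⁻¹ ≤ 2 := by
        rw [inv_le_comm₀ htpos two_pos]
        linarith
      have hvec : t⁻¹ • x - x1 = t⁻¹ • ((x - x1) - (t - 1) • x1) := by
        have h1 : (x - x1) - (t - 1) • x1 = x - t • x1 := by module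
        rw [h1, smul_sub, smul_smul, inv_mul_cancel₀ htpos.ne', one_smul]
      have hnorm : ‖(x - x1) - (t - 1) • x1‖ ≤ K * ‖x - x1‖ := by
        calc ‖(x - x1) - (t - 1) • x1‖ ≤ ‖x - x1‖ + ‖(t - 1) • x1‖ := norm_sub_le _ _
          _ = ‖x - x1‖ + |t - 1| * ‖x1‖ := by rw [norm_smul, Real.norm_eq_abs]
          _ ≤ ‖x - x1‖ + ((‖L‖ + ε) * ‖x - x1‖) * ‖x1‖ := by gcongr
          _ = K * ‖x - x1‖ := by rw [hK]; ring
      have hnorm2 : ‖t⁻¹ • x - x1‖ ≤ t⁻¹ * (K * ‖x - x1‖) := by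
        rw [hvec, norm_smul, Real.norm_of_nonneg (inv_nonneg.mpr htpos.le)]
        gcongr
      have hclose : ‖t⁻¹ • x - x1‖ < η := by
        refine lt_of_le_of_lt hnorm2 (lt_of_le_of_lt ?_ hx2')
        gcongr
      have h1 := hGη (y := t⁻¹ • x) (by rwa [dist_eq_norm])
      rw [hGx1] at h1
      have h2 := (le_abs_self _).trans h1
      have h3 : g (t⁻¹ • x - x1) = t⁻¹ * (-(ε * ‖x - x1‖ * g x1)) := by
        rw [hvec, map_smul, map_sub, map_smul, smul_eq_mul, smul_eq_mul]
        congr 1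
        rw [hgL (x - x1)]
        rw [ht]; ring
      have h4 : ε' * ‖t⁻¹ • x - x1‖ ≤ t⁻¹ * (ε * ‖x - x1‖ * g x1) := by
        calc ε' * ‖t⁻¹ • x - x1‖ ≤ ε' * (t⁻¹ * (K * ‖x - x1‖)) := by gcongr
          _ = t⁻¹ * (ε * ‖x - x1‖ * g x1) := by
            rw [hε']; field_simp
      rw [h3] at h2
      linarith
    rw [Real.norm_eq_abs, abs_le]
    have h5 : 0 ≤ ε * ‖x - x1‖ := by positivity
    constructor <;> linarith
  · -- values on homogeneous directions
    intro x hx
    have hGx : 0 ≤ G x := le_trans (by positivity) (hlow x)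
    have hiff : ∀ t : ℝ, 0 < t → (M x ≤ t ↔ G x ≤ t) := by
      intro t ht
      rw [hMt x t ht, hx _ (inv_nonneg.mpr ht.le), inv_mul_le_iff₀ ht, mul_one]
    apply le_antisymm
    · refine le_of_forall_pos_le_add fun ε hε => ?_
      exact (hiff (G x + ε) (by linarith)).mpr (by linarith)
    · refine le_of_forall_pos_le_add fun ε hε => ?_
      have : 0 ≤ M x := apply_nonneg M x
      exact (hiff (M x + ε) (by linarith)).mp (by linarith)

end

end Pool.Agent.L471c81
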