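import Pool.Agent.Lib.MP_471c81_an.Basic

set_option autoImplicit false

namespace Pool.Agent.L471c81

open Filter Topology

section

variable {X : Type*} [NormedAddCommGroup X] [NormedSpace ℝ X]

/-- The properties of the auxiliary function `Ψ` on the dual used below. -/
structure Good (Ψ : (X →L[ℝ] ℝ) → ℝ) : Prop where
  nonneg : ∀ z, 0 ≤ Ψ z
  even : ∀ z, Ψ (-z) = Ψ z
  cont : Continuous Ψ
  coercive : ∃ c > 0, ∀ z, c * ‖z‖ ^ 2 ≤ Ψ z
  bdd : ∃ C > 0, ∀ z, Ψ z ≤ C * (1 + ‖z‖ ^ 2)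
  sconv : ∀ z z', z ≠ z' → Ψ ((1/2 : ℝ) • (z + z')) < (Ψ z + Ψ z') / 2
  kk : ∀ (u : ℕ → (X →L[ℝ] ℝ)) z, PW u z → (∀ a > Ψ z, ∀ᶠ n in atTop, Ψ (u n) < a) →
    Tendsto u atTop (𝓝 z)

/-- normalising constants -/
noncomputable def cc (e : ℕ → (X →L[ℝ] ℝ)) (x : ℕ → X) (k : ℕ) : ℝ :=
  (1/2 : ℝ) ^ k / (1 + ‖e k‖ ^ 2 + ‖x k‖ ^ 2)

lemma cc_pos (e : ℕ → (X →L[ℝ] ℝ)) (x : ℕ → X) (k : ℕ) : 0 < cc e x k := by
  unfold cc; positivity

/-- terms of the series -/
noncomputable def TT (e : ℕ → (X →L[ℝ] ℝ)) (x : ℕ → X) (k : ℕ) (z : X →L[ℝ] ℝ) : ℝ :=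
  cc e x k * (‖z - e k‖ ^ 2 + (‖z + e k‖ ^ 2 + (z (x k)) ^ 2))

lemma TT_nonneg (e : ℕ → (X →L[ℝ] ℝ)) (x : ℕ → X) (k : ℕ) (z : X →L[ℝ] ℝ) :
    0 ≤ TT e x k z := by
  unfold TT; have := cc_pos e x k; positivity

lemma TT_le (e : ℕ → (X →L[ℝ] ℝ)) (x : ℕ → X) (k : ℕ) (z : X →L[ℝ] ℝ) :
    TT e x k z ≤ (1/2 : ℝ) ^ k * (4 * (1 + ‖z‖ ^ 2)) := by
  unfold TT cc
  have h1 : ‖z - e k‖ ≤ ‖z‖ + ‖e k‖ := norm_sub_le _ _
  have h2 : ‖z + e k‖ ≤ ‖z‖ + ‖e k‖ := norm_add_le _ _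
  have h3 : |z (x k)| ≤ ‖z‖ * ‖x k‖ := by
    simpa using ContinuousLinearMap.le_opNorm z (x k)
  have h1' : ‖z - e k‖ ^ 2 ≤ (‖z‖ + ‖e k‖) ^ 2 := by gcongr
  have h2' : ‖z + e k‖ ^ 2 ≤ (‖z‖ + ‖e k‖) ^ 2 := by gcongr
  have h3' : (z (x k)) ^ 2 ≤ (‖z‖ * ‖x k‖) ^ 2 := by
    rw [← sq_abs]; gcongr
  have hd : 0 < 1 + ‖e k‖ ^ 2 + ‖x k‖ ^ 2 := by positivity
  rw [div_mul_eq_mul_div, mul_div_assoc]
  gcongr
  rw [div_le_iff₀ hd]
  nlinarith [sq_nonneg (‖z‖ - ‖e k‖), sq_nonneg (‖z‖ * ‖x k‖), sq_nonneg (‖z‖ * ‖e k‖),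
    sq_nonneg ‖z‖, sq_nonneg ‖x k‖, sq_nonneg ‖e k‖]

lemma TT_summable (e : ℕ → (X →L[ℝ] ℝ)) (x : ℕ → X) (z : X →L[ℝ] ℝ) :
    Summable fun k => TT e x k z := by
  refine Summable.of_nonneg_of_le (fun k => TT_nonneg e x k z) (fun k => TT_le e x k z) ?_
  exact Summable.mul_right _ summable_geometric_two

/-- the function `Ψ` -/
noncomputable def Psi (e : ℕ → (X →L[ℝ] ℝ)) (x : ℕ → X) (z : X →L[ℝ] ℝ) : ℝ :=
  ∑' k, TT e x k z

lemma Psi_cont (e : ℕ → (X →L[ℝ] ℝ)) (x : ℕ → X) : Continuous (Psi e x) := by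
  rw [continuous_iff_continuousAt]
  intro z0
  have h : ContinuousOn (fun z => ∑' k, TT e x k z) (Metric.ball (0 : X →L[ℝ] ℝ) (‖z0‖ + 1)) := by
    refine continuousOn_tsum (u := fun k => (1/2 : ℝ) ^ k * (4 * (1 + (‖z0‖ + 1) ^ 2))) ?_ ?_ ?_
    · intro k
      apply Continuous.continuousOn
      unfold TT
      have h1 : Continuous fun z : X →L[ℝ] ℝ => z (x k) :=
        (ContinuousLinearMap.apply ℝ ℝ (x k)).continuous
      fun_prop
    · exact Summable.mul_right _ summable_geometric_two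
    · intro k z hz
      rw [Real.norm_of_nonneg (TT_nonneg e x k z)]
      refine (TT_le e x k z).trans ?_
      have : ‖z‖ ≤ ‖z0‖ + 1 := by
        have := mem_ball_zero_iff.mp hz; exact this.le
      gcongr
  exact h.continuousAt (Metric.isOpen_ball.mem_nhds (by simp))

lemma TT_conv (e : ℕ → (X →L[ℝ] ℝ)) (x : ℕ → X) (k : ℕ) (z z' : X →L[ℝ] ℝ) :
    TT e x k ((1/2 : ℝ) • (z + z')) ≤ (TT e x k z + TT e x k z') / 2
      - cc e x k * (z (x k) - z' (x k)) ^ 2 / 4 := by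
  unfold TT
  have hc := cc_pos e x k
  have h1 : ‖(1/2 : ℝ) • (z + z') - e k‖ ≤ (‖z - e k‖ + ‖z' - e k‖) / 2 := by
    have : (1/2 : ℝ) • (z + z') - e k = (1/2 : ℝ) • ((z - e k) + (z' - e k)) := by
      module
    rw [this, norm_smul]
    have := norm_add_le (z - e k) (z' - e k)
    simp only [one_div, norm_inv, Real.norm_ofNat]; linarith
  have h2 : ‖(1/2 : ℝ) • (z + z') + e k‖ ≤ (‖z + e k‖ + ‖z' + e k‖) / 2 := by
    have : (1/2 : ℝ) • (z + z') + e k = (1/2 : ℝ) • ((z + e k) + (z' + e k)) := by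
      module
    rw [this, norm_smul]
    have := norm_add_le (z + e k) (z' + e k)
    simp only [one_div, norm_inv, Real.norm_ofNat]; linarith
  have h1' : ‖(1/2 : ℝ) • (z + z') - e k‖ ^ 2 ≤ (‖z - e k‖ ^ 2 + ‖z' - e k‖ ^ 2) / 2 := by
    calc _ ≤ ((‖z - e k‖ + ‖z' - e k‖) / 2) ^ 2 := by gcongr
      _ ≤ _ := by nlinarith [sq_nonneg (‖z - e k‖ - ‖z' - e k‖)]
  have h2' : ‖(1/2 : ℝ) • (z + z') + e k‖ ^ 2 ≤ (‖z + e k‖ ^ 2 + ‖z' + e k‖ ^ 2) / 2 := by
    calc _ ≤ ((‖z + e k‖ + ‖z' + e k‖) / 2) ^ 2 := by gcongr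
      _ ≤ _ := by nlinarith [sq_nonneg (‖z + e k‖ - ‖z' + e k‖)]
  have h3' : (((1/2 : ℝ) • (z + z')) (x k)) ^ 2 = ((z (x k)) ^ 2 + (z' (x k)) ^ 2) / 2
      - (z (x k) - z' (x k)) ^ 2 / 4 := by
    simp only [smul_apply, add_apply, smul_eq_mul]
    ring
  rw [h3']
  nlinarith

theorem good_Psi (e : ℕ → (X →L[ℝ] ℝ)) (he : DenseRange e) (x : ℕ → X) (hx : DenseRange x) :
    Good (Psi e x) where
  nonneg z := tsum_nonneg fun k => TT_nonneg e x k z
  even z := by
    unfold Psi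
    congr 1
    ext k
    unfold TT
    have h1 : ‖-z - e k‖ = ‖z + e k‖ := by rw [← norm_neg]; congr 1; abel
    have h2 : ‖-z + e k‖ = ‖z - e k‖ := by rw [← norm_neg]; congr 1; abel
    rw [h1, h2]
    simp only [neg_apply, neg_sq]
    ring
  cont := Psi_cont e x
  coercive := by
    refine ⟨2 * cc e x 0, mul_pos two_pos (cc_pos e x 0), fun z => ?_⟩
    have h1 : TT e x 0 z ≤ Psi e x z :=
      (TT_summable e x z).le_tsum 0 fun k _ => TT_nonneg e x k z
    refine le_trans ?_ h1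
    unfold TT
    have h2 : 2 * ‖z‖ ≤ ‖z - e 0‖ + ‖z + e 0‖ := by
      have : (2 : ℝ) • z = (z - e 0) + (z + e 0) := by module
      calc 2 * ‖z‖ = ‖(2 : ℝ) • z‖ := by rw [norm_smul]; simp
        _ = ‖(z - e 0) + (z + e 0)‖ := by rw [this]
        _ ≤ _ := norm_add_le _ _
    have hc := cc_pos e x 0
    have h3 : 2 * ‖z‖ ^ 2 ≤ ‖z - e 0‖ ^ 2 + (‖z + e 0‖ ^ 2 + (z (x 0)) ^ 2) := by
      nlinarith [sq_nonneg (‖z - e 0‖ - ‖z + e 0‖), norm_nonneg z, norm_nonneg (z - e 0),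
        norm_nonneg (z + e 0), sq_nonneg (z (x 0))]
    calc 2 * cc e x 0 * ‖z‖ ^ 2 = cc e x 0 * (2 * ‖z‖ ^ 2) := by ring
      _ ≤ _ := by gcongr
  bdd := by
    refine ⟨8, by norm_num, fun z => ?_⟩
    have h1 : Psi e x z ≤ ∑' k : ℕ, (1/2 : ℝ) ^ k * (4 * (1 + ‖z‖ ^ 2)) :=
      (TT_summable e x z).tsum_le_tsum (fun k => TT_le e x k z)
        (Summable.mul_right _ summable_geometric_two)
    rw [tsum_mul_right, tsum_geometric_two] at h1
    linarith
  sconv z z' hzz := by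
    have h0 : ∃ k, z (x k) ≠ z' (x k) := by
      by_contra hcon
      push Not at hcon
      apply hzz
      ext y
      have : (fun y => z y) = (fun y => z' y) :=
        hx.equalizer z.continuous z'.continuous (funext hcon)
      exact congrFun this y
    obtain ⟨k, hk⟩ := h0
    have hs1 := TT_summable e x z
    have hs2 := TT_summable e x z'
    have : (Psi e x z + Psi e x z') / 2 = ∑' k, (TT e x k z + TT e x k z') / 2 := by
      unfold Psi
      rw [tsum_div_const, hs1.tsum_add hs2]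
    rw [this]
    have hc := cc_pos e x k
    have hpos : 0 < cc e x k * (z (x k) - z' (x k)) ^ 2 / 4 := by
      have : 0 < (z (x k) - z' (x k)) ^ 2 := by
        have : z (x k) - z' (x k) ≠ 0 := sub_ne_zero.mpr hk
        positivity
      positivity
    refine Summable.tsum_lt_tsum (i := k) (fun j => ?_) ?_ (TT_summable e x _) ?_
    · have h1 := TT_conv e x j z z'
      have hcj := cc_pos e x j
      have : 0 ≤ cc e x j * (z (x j) - z' (x j)) ^ 2 / 4 := by positivity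
      linarith
    · have h1 := TT_conv e x k z z'
      linarith
    · exact (hs1.add hs2).div_const 2
  kk u z hu hlim := by
    rw [Metric.tendsto_atTop]
    intro ε hε
    -- choose `e j` close to `z`
    obtain ⟨j, hj⟩ := he.exists_dist_lt z (show (0 : ℝ) < ε / 4 by linarith)
    have hj' : ‖z - e j‖ < ε / 4 := by rwa [dist_eq_norm] at hj
    have hcj := cc_pos e x j
    have hLSe : ∀ k, LS u z (fun z => ‖z - e k‖ ^ 2) := fun k =>
      (LS.norm hu (e k)).sq fun _ => norm_nonneg _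
    have hLSe' : ∀ k, LS u z (fun z => ‖z + e k‖ ^ 2) := fun k => by
      have := (LS.norm hu (-(e k))).sq fun _ => norm_nonneg _
      simpa using this
    have hLSx : ∀ k, LS u z (fun z => (z (x k)) ^ 2) := fun k =>
      LS.of_tendsto ((hu (x k)).pow 2)
    have hLSb : ∀ k, LS u z (fun z => cc e x k * (‖z + e k‖ ^ 2 + (z (x k)) ^ 2)) := fun k =>
      ((hLSe' k).add (hLSx k)).const_mul (cc_pos e x k)
    have hLST : ∀ k, LS u z (TT e x k) := fun k =>
      ((hLSe k).add ((hLSe' k).add (hLSx k))).const_mul (cc_pos e x k)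
    -- the rest
    let T' : ℕ → (X →L[ℝ] ℝ) → ℝ := fun k z =>
      if k = j then cc e x j * (‖z + e j‖ ^ 2 + (z (x j)) ^ 2) else TT e x k z
    have hT'0 : ∀ k z, 0 ≤ T' k z := by
      intro k z
      simp only [T']
      split_ifs
      · positivity
      · exact TT_nonneg e x k z
    have hTT' : ∀ k z, TT e x k z = T' k z + if k = j then cc e x j * ‖z - e j‖ ^ 2 else 0 := by
      intro k z
      simp only [T']
      split_ifs with h
      · subst h
        unfold TT; ring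
      · simp
    have hT's : ∀ z, Summable fun k => T' k z := by
      intro z
      refine Summable.of_nonneg_of_le (fun k => hT'0 k z) (fun k => ?_) (TT_summable e x z)
      rw [hTT' k z]
      have : (0 : ℝ) ≤ if k = j then cc e x j * ‖z - e j‖ ^ 2 else 0 := by
        split_ifs
        · positivity
        · exact le_rfl
      linarith
    have hT'LS : ∀ k, LS u z (T' k) := by
      intro k
      by_cases h : k = j
      · subst h
        have := hLSb k
        simpa [T'] using this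
      · have := hLST k
        have hE : T' k = TT e x k := by ext z; simp [T', h]
        rw [hE]; exact this
    have hrest := LS.tsum hT'LS hT'0 hT's
    have hPsi : ∀ z, Psi e x z = (∑' k, T' k z) + cc e x j * ‖z - e j‖ ^ 2 := by
      intro z
      unfold Psi
      have : ∀ k, TT e x k z = T' k z + if k = j then cc e x j * ‖z - e j‖ ^ 2 else 0 :=
        fun k => hTT' k z
      simp_rw [this]
      rw [(hT's z).tsum_add (summable_of_hasFiniteSupport (by
        refine (Set.finite_singleton j).subset ?_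
        intro k hk
        by_contra h
        simp only [Set.mem_singleton_iff] at h
        simp [h] at hk)), tsum_ite_eq]
    -- choose the margins
    set η : ℝ := cc e x j * (ε / 4) ^ 2 with hη
    have hηpos : 0 < η := by positivity
    have h1 := hrest ((∑' k, T' k z) - η) (by simp only; linarith)
    have h2 := hlim (Psi e x z + η) (by linarith)
    obtain ⟨N, hN⟩ := (h1.and h2).exists_forall_of_atTop
    refine ⟨N, fun n hn => ?_⟩
    obtain ⟨h3, h4⟩ := hN n hn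
    rw [hPsi, hPsi z] at h4
    have h5 : cc e x j * ‖u n - e j‖ ^ 2 < cc e x j * ‖z - e j‖ ^ 2 + 2 * η := by linarith
    have h6 : ‖u n - e j‖ ^ 2 < 3 * (ε / 4) ^ 2 := by
      have h7 : ‖z - e j‖ ^ 2 < (ε / 4) ^ 2 := by
        have := norm_nonneg (z - e j)
        gcongr
      have h8 : cc e x j * ‖u n - e j‖ ^ 2 < cc e x j * (3 * (ε / 4) ^ 2) := by
        rw [hη] at h5
        nlinarith
      exact lt_of_mul_lt_mul_left h8 hcj.le
    have h9 : ‖u n - e j‖ < 2 * (ε / 4) := by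
      apply lt_of_pow_lt_pow_left₀ 2 (by positivity)
      nlinarith
    calc dist (u n) z ≤ dist (u n) (e j) + dist (e j) z := dist_triangle _ _ _
      _ = ‖u n - e j‖ + ‖z - e j‖ := by rw [dist_eq_norm, dist_comm (e j) z, dist_eq_norm]
      _ < 2 * (ε / 4) + ε / 4 := add_lt_add h9 hj'
      _ ≤ ε := by linarith

end

end Pool.Agent.L471c81
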