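import Pool.Agent.Lib.MP_471c81_an.Psi

set_option autoImplicit false

namespace Pool.Agent.L471c81

open Filter Topology

section

variable {X : Type*} [NormedAddCommGroup X] [NormedSpace ℝ X]
variable {W : Type*} [NormedAddCommGroup W] [NormedSpace ℝ W]

/-- every functional on `W` extends through `ι` to `X` with the same norm -/
def HB (ι : W →L[ℝ] X) : Prop :=
  ∀ w : W →L[ℝ] ℝ, ∃ g : X →L[ℝ] ℝ, (∀ y : W, g (ι y) = w y) ∧ ‖g‖ = ‖w‖

lemma Good.bounded_of_le {Ψ : (X →L[ℝ] ℝ) → ℝ} (hΨ : Good Ψ) (M : ℝ) :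
    ∃ R : ℝ, ∀ z, Ψ z ≤ M → ‖z‖ ≤ R := by
  obtain ⟨c, hc, hcz⟩ := hΨ.coercive
  refine ⟨Real.sqrt (M / c), fun z hz => ?_⟩
  apply Real.le_sqrt_of_sq_le
  rw [le_div_iff₀ hc]
  have := hcz z
  linarith

/-- existence of the minimiser on a fibre of the restriction map -/
lemma exists_min [TopologicalSpace.SeparableSpace X] {Ψ : (X →L[ℝ] ℝ) → ℝ} (hΨ : Good Ψ)
    (ι : W →L[ℝ] X) (hHB : HB ι) (w : W →L[ℝ] ℝ) :
    ∃ z : X →L[ℝ] ℝ, (∀ y : W, z (ι y) = w y) ∧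
      ∀ z' : X →L[ℝ] ℝ, (∀ y : W, z' (ι y) = w y) → Ψ z ≤ Ψ z' := by
  set S : Set ℝ := {t | ∃ z : X →L[ℝ] ℝ, (∀ y : W, z (ι y) = w y) ∧ t = Ψ z} with hS
  have hne : S.Nonempty := by
    obtain ⟨g, hg, -⟩ := hHB w
    exact ⟨Ψ g, g, hg, rfl⟩
  have hbb : BddBelow S := ⟨0, by rintro t ⟨z, -, rfl⟩; exact hΨ.nonneg z⟩
  obtain ⟨t, -, ht, htS⟩ := exists_seq_tendsto_sInf hne hbb
  choose z hz hz2 using htS
  have hbdd : ∃ M, ∀ n, t n ≤ M := by
    obtain ⟨M, hM⟩ := ht.bddAbove_range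
    exact ⟨M, fun n => hM ⟨n, rfl⟩⟩
  obtain ⟨M, hM⟩ := hbdd
  obtain ⟨R, hR⟩ := hΨ.bounded_of_le M
  obtain ⟨φ, z', hφ, hpw⟩ := exists_subseq_pw z (fun n => hR (z n) ((hz2 n) ▸ hM n))
  have hz' : ∀ y : W, z' (ι y) = w y := by
    intro y
    refine tendsto_nhds_unique (hpw (ι y)) ?_
    simp only [hz]
    exact tendsto_const_nhds
  have hle : sInf S ≤ Ψ z' := csInf_le hbb ⟨z', hz', rfl⟩
  have htφ : Tendsto (fun n => Ψ (z (φ n))) atTop (𝓝 (sInf S)) := by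
    have := ht.comp hφ.tendsto_atTop
    refine this.congr fun n => ?_
    simp [hz2]
  have hkk := hΨ.kk (fun n => z (φ n)) z' hpw
    (fun a ha => htφ.eventually (gt_mem_nhds (hle.trans_lt ha)))
  have h1 : Ψ z' = sInf S :=
    tendsto_nhds_unique ((hΨ.cont.tendsto z').comp hkk) htφ
  refine ⟨z', hz', fun z'' hz'' => ?_⟩
  rw [h1]
  exact csInf_le hbb ⟨z'', hz'', rfl⟩

/-- the minimiser is unique -/
lemma min_unique {Ψ : (X →L[ℝ] ℝ) → ℝ} (hΨ : Good Ψ)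
    (ι : W →L[ℝ] X) (w : W →L[ℝ] ℝ) {z₁ z₂ : X →L[ℝ] ℝ}
    (h₁ : ∀ y : W, z₁ (ι y) = w y) (h₂ : ∀ y : W, z₂ (ι y) = w y)
    (hm₁ : ∀ z' : X →L[ℝ] ℝ, (∀ y : W, z' (ι y) = w y) → Ψ z₁ ≤ Ψ z')
    (hle : Ψ z₂ ≤ Ψ z₁) : z₂ = z₁ := by
  by_contra hne
  have h := hΨ.sconv z₂ z₁ hne
  have h3 := hm₁ ((1/2 : ℝ) • (z₂ + z₁)) (by
    intro y
    simp only [smul_apply, add_apply, smul_eq_mul, h₁, h₂]
    ring)
  linarith

theorem exists_selection [TopologicalSpace.SeparableSpace X] {Ψ : (X →L[ℝ] ℝ) → ℝ}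
    (hΨ : Good Ψ) (ι : W →L[ℝ] X) (hHB : HB ι) :
    ∃ s : (W →L[ℝ] ℝ) → (X →L[ℝ] ℝ), Continuous s ∧ (∀ w (y : W), s w (ι y) = w y) ∧
      (∀ w, s (-w) = - s w) ∧ ∃ C > 0, ∀ w, ‖s w‖ ^ 2 ≤ C * (1 + ‖w‖ ^ 2) := by
  choose s hs hmin using exists_min hΨ ι hHB
  obtain ⟨c, hc, hcz⟩ := hΨ.coercive
  obtain ⟨C, hC, hCz⟩ := hΨ.bdd
  have hPsis : ∀ w, Ψ (s w) ≤ C * (1 + ‖w‖ ^ 2) := by
    intro w
    obtain ⟨g, hg, hgn⟩ := hHB w
    refine (hmin w g hg).trans ?_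
    rw [← hgn]
    exact hCz g
  refine ⟨s, ?_, hs, ?_, C / c, by positivity, ?_⟩
  · -- continuity
    rw [continuous_iff_continuousAt]
    intro w
    refine tendsto_of_subseq_tendsto ?_
    intro ws hws
    -- bounded
    have hb : ∃ R, ∀ n, ‖s (ws n)‖ ≤ R := by
      obtain ⟨M, hM⟩ := (hws.norm).bddAbove_range
      have hM' : ∀ n, ‖ws n‖ ≤ M := fun n => hM ⟨n, rfl⟩
      obtain ⟨R, hR⟩ := hΨ.bounded_of_le (C * (1 + M ^ 2))
      refine ⟨R, fun n => hR _ ((hPsis _).trans ?_)⟩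
      have := hM' n
      gcongr
    obtain ⟨R, hR⟩ := hb
    obtain ⟨φ, z', hφ, hpw⟩ := exists_subseq_pw (fun n => s (ws n)) hR
    refine ⟨φ, ?_⟩
    have hwsφ : Tendsto (fun n => ws (φ n)) atTop (𝓝 w) := hws.comp hφ.tendsto_atTop
    have hz' : ∀ y : W, z' (ι y) = w y := by
      intro y
      refine tendsto_nhds_unique (hpw (ι y)) ?_
      simp only [hs]
      exact ((ContinuousLinearMap.apply ℝ ℝ y).continuous.tendsto w).comp hwsφ
    -- comparison functionals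
    have hext : ∀ n, ∃ u : X →L[ℝ] ℝ, (∀ y : W, u (ι y) = (ws (φ n) - w) y) ∧
        ‖u‖ = ‖ws (φ n) - w‖ := fun n => hHB _
    choose u hu hun using hext
    have hu0 : Tendsto u atTop (𝓝 0) := by
      rw [tendsto_zero_iff_norm_tendsto_zero]
      simp only [hun]
      rw [← tendsto_zero_iff_norm_tendsto_zero]
      simpa using hwsφ.sub_const w
    have hcomp : ∀ n, Ψ (s (ws (φ n))) ≤ Ψ (s w + u n) := by
      intro n
      apply hmin
      intro y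
      simp only [add_apply, hs, hu, sub_apply]
      ring
    have hlim : Tendsto (fun n => Ψ (s w + u n)) atTop (𝓝 (Ψ (s w))) := by
      have h1 : Tendsto (fun n => s w + u n) atTop (𝓝 (s w)) := by
        simpa using hu0.const_add (s w)
      exact (hΨ.cont.tendsto _).comp h1
    have hle : Ψ (s w) ≤ Ψ z' := hmin w z' hz'
    have hkk := hΨ.kk (fun n => s (ws (φ n))) z' hpw (fun a ha => by
      filter_upwards [hlim.eventually (gt_mem_nhds (hle.trans_lt ha))] with n hn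
      exact (hcomp n).trans_lt hn)
    have h1 : Ψ z' ≤ Ψ (s w) :=
      le_of_tendsto_of_tendsto' ((hΨ.cont.tendsto z').comp hkk) hlim hcomp
    have h2 : z' = s w := min_unique hΨ ι w (hs w) hz' (hmin w) h1
    rw [← h2]
    exact hkk
  · -- odd
    intro w
    refine (min_unique hΨ ι (-w) (hs (-w)) ?_ (hmin (-w)) ?_).symm
    · intro y
      simp [hs]
    · rw [hΨ.even]
      have := hmin w (-(s (-w))) (by intro y; simp [hs])
      rwa [hΨ.even] at this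
  · intro w
    rw [div_mul_eq_mul_div, le_div_iff₀ hc]
    have := hcz (s w)
    have := hPsis w
    linarith

end

end Pool.Agent.L471c81
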